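import Pool.Agent.Helper74.LN.Defs

/-! # LN-LAM: the map `Lam` -/

set_option autoImplicit false

namespace Pool.Agent.Helper74.LN

open MvPolynomial
open Pool.Agent.Helper8.LG (mon form Ix Bdd)
open Pool.Agent.Helper74.LG (scl)

variable {E : Type*} [Field E] {σ : Type*} [Fintype σ] [DecidableEq σ]
  {M : Type*} [AddCommGroup M] [Module E M] {d : ℕ}

omit [Fintype σ] in
theorem ex_inj {s t : Sym σ d} (h : ex s = ex t) : s = t :=
  Subtype.ext (Multiset.toFinsupp.injective h)

theorem lam_apply (V : Sym σ d → M) (g : MvPolynomial σ E) :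
    Lam V g = ∑ s, coeff (ex s) g • V s := by
  rw [Lam, LinearMap.sum_apply]
  refine Finset.sum_congr rfl fun s _ => ?_
  rw [LinearMap.comp_apply, LinearMap.toSpanSingleton_apply, lcoeff_apply]

theorem lam_ex (V : Sym σ d → M) (s : Sym σ d) : Lam V (monomial (ex s) (1 : E)) = V s := by
  rw [lam_apply, Finset.sum_eq_single s]
  · rw [coeff_monomial, if_pos rfl, one_smul]
  · intro t _ ht
    rw [coeff_monomial, if_neg (fun h => ht (ex_inj h.symm)), zero_smul]
  · intro h
    exact absurd (Finset.mem_univ s) h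

/-- every exponent vector of degree `d` is an `ex s` -/
theorem exists_ex (m : σ →₀ ℕ) (hm : m.degree = d) : ∃ s : Sym σ d, ex s = m := by
  refine ⟨⟨Finsupp.toMultiset m, ?_⟩, ?_⟩
  · rw [Finsupp.card_toMultiset, ← hm, Finsupp.degree_eq_sum]
    exact Finsupp.sum_fintype _ _ fun _ => rfl
  · exact Finsupp.toMultiset_toFinsupp m

theorem ex_degree (s : Sym σ d) : (ex s).degree = d := by
  have h : (Finsupp.toMultiset (ex s)).card = d := by
    rw [ex, Multiset.toFinsupp_toMultiset]
    exact s.2
  rw [Finsupp.card_toMultiset] at h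
  rw [Finsupp.degree_eq_sum]
  exact (Finsupp.sum_fintype _ _ fun _ => rfl).symm.trans h

theorem lam_ne (V : Sym σ d → M) (m : σ →₀ ℕ) (hm : m.degree ≠ d) (c : E) :
    Lam V (monomial m c) = 0 := by
  rw [lam_apply]
  refine Finset.sum_eq_zero fun s _ => ?_
  rw [coeff_monomial, if_neg, zero_smul]
  rintro rfl
  exact hm (ex_degree s)

theorem lam_map {N : Type*} [AddCommGroup N] [Module E N] (f : M →ₗ[E] N) (V : Sym σ d → M)
    (g : MvPolynomial σ E) : f (Lam V g) = Lam (fun s => f (V s)) g := by
  rw [lam_apply, lam_apply, map_sum]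
  simp only [map_smul]

theorem lam_mem_span (V : Sym σ d → M) (g : MvPolynomial σ E) :
    Lam V g ∈ Submodule.span E (Set.range V) := by
  rw [lam_apply]
  exact Submodule.sum_mem _ fun s _ =>
    Submodule.smul_mem _ _ (Submodule.subset_span ⟨s, rfl⟩)

theorem lam_range (V : Sym σ d → M) :
    LinearMap.range (Lam (E := E) V) = Submodule.span E (Set.range V) := by
  refine le_antisymm ?_ (Submodule.span_le.2 ?_)
  · rintro _ ⟨g, rfl⟩
    exact lam_mem_span V g
  · rintro _ ⟨s, rfl⟩
    exact ⟨monomial (ex s) 1, lam_ex V s⟩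

/-- columns of the normalised point -/
theorem lam_shift {ρ : Type*} {c : E} {eul eul' : σ ⊕ ρ → E} {V V' : Sym σ d → σ ⊕ ρ → E}
    (h : Shift c eul eul' V V') (g : MvPolynomial σ E) :
    ∃ b : E, Lam V g = scl c (Lam V' g) + b • eul := by
  choose b hb using h.col_eq
  refine ⟨∑ s, coeff (ex s) g * b s, ?_⟩
  rw [lam_apply, lam_apply, map_sum, Finset.sum_smul, ← Finset.sum_add_distrib]
  refine Finset.sum_congr rfl fun s _ => ?_
  rw [hb s, smul_add, map_smul, smul_smul]

/-- bounded columns -/
theorem lam_mem {R : Type*} (O : Subring E) (Δ : E) (V : Sym σ d → R → E)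
    (hV : ∀ s r, Δ * V s r ∈ O) (g : MvPolynomial σ E) (hg : ∀ m, coeff m g ∈ O) (r : R) :
    Δ * Lam V g r ∈ O := by
  rw [lam_apply, Finset.sum_apply, Finset.mul_sum]
  refine sum_mem fun s _ => ?_
  rw [Pi.smul_apply, smul_eq_mul, mul_left_comm]
  exact mul_mem (hg _) (hV s r)

/-- It is enough to test multiples by monomials. -/
theorem lam_ideal (V : Sym σ d → M) (W : Submodule E M) (S : Set (MvPolynomial σ E))
    (hS : ∀ h ∈ S, ∀ m : σ →₀ ℕ, Lam V (monomial m 1 * h) ∈ W) :
    ∀ f ∈ Ideal.span S, Lam V f ∈ W := by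
  have key : ∀ f ∈ Ideal.span S, ∀ m : σ →₀ ℕ, Lam V (monomial m 1 * f) ∈ W := by
    intro f hf
    refine Submodule.span_induction (p := fun f _ => ∀ m : σ →₀ ℕ,
      Lam V (monomial m 1 * f) ∈ W) hS ?_ ?_ ?_ hf
    · intro m
      rw [mul_zero, map_zero]
      exact W.zero_mem
    · intro x y _ _ hx hy m
      rw [mul_add, map_add]
      exact W.add_mem (hx m) (hy m)
    · intro a x _ hx m
      have e : monomial m 1 * (a • x) =
          ∑ n ∈ a.support, coeff n a • (monomial (m + n) (1 : E) * x) := by
        conv_lhs => rw [smul_eq_mul, a.as_sum]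
        rw [Finset.sum_mul, Finset.mul_sum]
        refine Finset.sum_congr rfl fun n _ => ?_
        rw [← mul_assoc, monomial_mul, one_mul, smul_eq_C_mul, ← mul_assoc, C_mul_monomial,
          mul_one]
      rw [e, map_sum]
      refine Submodule.sum_mem _ fun n _ => ?_
      rw [map_smul]
      exact W.smul_mem _ (hx _)
  intro f hf
  have h := key f hf 0
  rw [monomial_zero', C_1, one_mul] at h
  exact h

theorem zp_monomial (m : σ →₀ ℕ) :
    zp E (monomial m (1 : ℤ)) = (monomial m (1 : E) : MvPolynomial σ E) := by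
  rw [zp, map_monomial, map_one]

/-- the coefficients of an integral polynomial are integral -/
theorem zp_coeff (P : MvPolynomial σ ℤ) (m : σ →₀ ℕ) :
    coeff m (zp E P) = ((coeff m P : ℤ) : E) := by
  rw [zp, coeff_map, eq_intCast]

/-- the coefficients of products of integral polynomials -/
theorem coeff_mul_mem (O : Subring E) (f g : MvPolynomial σ E) (hf : ∀ m, coeff m f ∈ O)
    (hg : ∀ m, coeff m g ∈ O) (m : σ →₀ ℕ) : coeff m (f * g) ∈ O := by
  classical
  rw [coeff_mul]
  exact sum_mem fun x _ => mul_mem (hf _) (hg _)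

omit [Fintype σ] in
theorem mon_ex (x : σ → E) (s : Sym σ d) : mon x s = (ex s).prod fun i k => x i ^ k := by
  rw [mon, Finset.prod_multiset_map_count, ex, Finsupp.prod, Multiset.toFinsupp_support]
  refine Finset.prod_congr rfl fun i _ => ?_
  rw [Multiset.toFinsupp_apply]

theorem lam_val {lam : M →ₗ[E] E} {V : Sym σ d → M} {x : σ → E}
    (h : ∀ s, lam (V s) = mon x s) (m : σ →₀ ℕ) (c : E) :
    lam (Lam V (monomial m c)) = if m.degree = d then c * m.prod fun i k => x i ^ k else 0 := by
  split_ifs with hm
  · obtain ⟨s, rfl⟩ := exists_ex m hm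
    have e : (monomial (ex s) c : MvPolynomial σ E) = c • monomial (ex s) 1 := by
      rw [smul_monomial, smul_eq_mul, mul_one]
    rw [e, map_smul, map_smul, lam_ex, h, smul_eq_mul, mon_ex]
  · rw [lam_ne V m hm, map_zero]

/-- the values of the functional -/
theorem lam_two {lam : M →ₗ[E] E} {V : Sym σ d → M} {x : σ → E}
    (h : ∀ s, lam (V s) = mon x s) (g : MvPolynomial σ E) (j l : σ) :
    lam (Lam V (g * two x j l)) = 0 := by
  induction g using MvPolynomial.induction_on' with
  | monomial m c =>
    have e : monomial m c * two x j l = monomial (m + Finsupp.single l 1) (c * x j) -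
        monomial (m + Finsupp.single j 1) (c * x l) := by
      rw [two, mul_sub, ← mul_assoc, ← mul_assoc, mul_comm _ (C (x j)), mul_comm _ (C (x l)),
        C_mul_monomial, C_mul_monomial, X, X, monomial_mul, monomial_mul, mul_one, mul_one,
        mul_comm (x j), mul_comm (x l)]
    have hd : ∀ i : σ, (m + Finsupp.single i 1).degree = m.degree + 1 := by
      intro i
      rw [map_add, Finsupp.degree_single]
    have hp : ∀ i : σ, (m + Finsupp.single i 1).prod (fun i k => x i ^ k) =
        (m.prod fun i k => x i ^ k) * x i := by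
      intro i
      have h1 := Finsupp.prod_single_index (a := i) (b := 1) (h := fun i k => x i ^ k)
        (pow_zero _)
      rw [Finsupp.prod_add_index' (fun _ => pow_zero _) (fun _ _ _ => pow_add _ _ _), h1,
        pow_one]
    rw [e, map_sub, map_sub, lam_val h, lam_val h, hd, hd, hp, hp]
    split_ifs
    · ring
    · ring
  | add p q hp hq => rw [add_mul, map_add, map_add, hp, hq, add_zero]

theorem lam_pow {lam : M →ₗ[E] E} {V : Sym σ d → M} {x : σ → E}
    (h : ∀ s, lam (V s) = mon x s) (i : σ) :
    lam (Lam V ((X i : MvPolynomial σ E) ^ d)) = x i ^ d := by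
  have h1 := Finsupp.prod_single_index (a := i) (b := d) (h := fun i k => x i ^ k)
    (pow_zero _)
  rw [X_pow_eq_monomial, lam_val h, Finsupp.degree_single, if_pos rfl, h1, one_mul]

/-- the column of a form which vanishes at the point is in the span of the `sv`; for a monomial
`s` and `x_(i₀) = 1`: `X^s - x^s X_(i₀)^d` -/
theorem lam_mon_sub (V : Sym σ d → M) (x : σ → E) (i₀ : σ) (hx : x i₀ ≠ 0) (s : Sym σ d) :
    x i₀ ^ d • V s - mon x s • Lam V ((X i₀ : MvPolynomial σ E) ^ d) ∈
      Submodule.span E (Set.range (sv V x)) := by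
  have _ := hx
  set I : Ideal (MvPolynomial σ E) := Ideal.span (Set.range fun l => two x i₀ l) with hI
  have key : ∀ t : Multiset σ, C (x i₀ ^ t.card) * (t.map X).prod -
      C ((t.map x).prod) * (X i₀ : MvPolynomial σ E) ^ t.card ∈ I := by
    intro t
    induction t using Multiset.induction_on with
    | empty => simp
    | cons a t ih =>
      rw [Multiset.card_cons, Multiset.map_cons, Multiset.map_cons, Multiset.prod_cons,
        Multiset.prod_cons]
      have h1 : two x i₀ a ∈ I := Ideal.subset_span ⟨a, rfl⟩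
      have h2 := I.add_mem (I.mul_mem_left (C (x i₀) * X a) ih)
        (I.mul_mem_left (C ((t.map x).prod) * (X i₀ : MvPolynomial σ E) ^ t.card) h1)
      have e : C (x i₀ ^ (t.card + 1)) * (X a * (t.map X).prod) -
          C (x a * (t.map x).prod) * (X i₀ : MvPolynomial σ E) ^ (t.card + 1) =
          C (x i₀) * X a * (C (x i₀ ^ t.card) * (t.map X).prod -
            C ((t.map x).prod) * X i₀ ^ t.card) +
          C ((t.map x).prod) * X i₀ ^ t.card * two x i₀ a := by
        rw [two, pow_succ, C_mul, C_mul, pow_succ]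
        ring
      rw [e]
      exact h2
  have hmon : monomial (ex s) (1 : E) = (((s : Multiset σ).map X).prod : MvPolynomial σ E) := by
    have h1 : ∀ t : Multiset σ, monomial (Multiset.toFinsupp t) (1 : E) =
        ((t.map X).prod : MvPolynomial σ E) := by
      intro t
      induction t using Multiset.induction_on with
      | empty => simp
      | cons a t ih =>
        rw [Multiset.map_cons, Multiset.prod_cons, ← ih, X, monomial_mul, one_mul,
          ← Multiset.singleton_add, map_add, Multiset.toFinsupp_singleton]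
    exact h1 _
  have hc : (s : Multiset σ).card = d := s.2
  have hk := key (s : Multiset σ)
  rw [← hmon, hc] at hk
  have h3 := lam_ideal V (Submodule.span E (Set.range (sv V x)))
    (Set.range fun l => two x i₀ l) (by
      rintro _ ⟨l, rfl⟩ m
      exact Submodule.subset_span ⟨(m, i₀, l), rfl⟩) _ hk
  rw [map_sub, ← smul_eq_C_mul, ← smul_eq_C_mul, map_smul, map_smul, lam_ex] at h3
  exact h3

end Pool.Agent.Helper74.LN
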