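import Pool.Agent.Helper74.LN.Lam
import Pool.Agent.Helper49.LN.K2
import Pool.Agent.Helper49.LN.ToMoves

/-!
# LN-K2: a line which moves in many dimensions is bounded (determinant G3)

`R = dim Asp - dim Jsp ≥ T`, `nJ + 4 + R ≤ 2 σ + τ`, `m := σ + nJ + 1 ≤ R (R - 1) / 2`,
`G = det / P_ab^m`; no normalisation of `z` is needed.
-/

set_option autoImplicit false

namespace Pool.Agent.Helper74.LN

open Pool.Agent.Helper8.LG (mon form Ix Bdd)

theorem k2 {E σ τ : Type*} [Field E] [Fintype σ] [DecidableEq σ] [Fintype τ] {d : ℕ}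
    (D : Sym σ d → Derivation ℤ E E) (θ : τ → Sym σ d → E) (z : Fin 2 → σ → E)
    (hz : ∃ a b, pl z a b ≠ 0) (T : ℕ) (hm : Moves T D θ z)
    (hT : 6 * Fintype.card σ + 2 * Fintype.card τ ≤ T * (T + 1) + 6) :
    ∃ G : E, G ≠ 0 ∧ KeyL D θ z G := by
  classical
  obtain ⟨a, b, hab⟩ := hz
  rcases d with _ | n
  · -- no forms
    exfalso
    have hne : a ≠ b := by
      rintro rfl
      apply hab
      unfold pl
      ring
    have hσ : 2 ≤ Fintype.card σ := by
      have h1 : ({a, b} : Finset σ).card ≤ Fintype.card σ := Finset.card_le_univ _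
      rwa [Finset.card_pair hne] at h1
    have hT1 : T ≤ 1 := by
      have h2 : Module.finrank E (Asp D θ z) ≤ Module.finrank E (Jsp D θ z) + 1 := by
        unfold Asp Jsp
        have h3 : Set.range (mu D θ z) = {mu D θ z default} := by
          ext v
          constructor
          · rintro ⟨s, rfl⟩
            rw [Subsingleton.elim s default]
            rfl
          · rintro rfl
            exact ⟨default, rfl⟩
        rw [h3]
        refine (Pool.Agent.Helper49.LN.finrank_sup_span_singleton_le _ _).trans ?_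
        exact Nat.add_le_add_right (Submodule.finrank_mono le_sup_left) 1
      unfold Moves at hm
      omega
    have h4 : T * (T + 1) ≤ 1 * (1 + 1) := Nat.mul_le_mul hT1 (Nat.succ_le_succ hT1)
    omega
  · have hz2 : z = ![z 0, z 1] := by
      funext i
      fin_cases i <;> rfl
    rw [hz2] at hm
    have h1 := (Pool.Agent.Helper49.LN.moves_iff T D θ (z 0) (z 1)).1 hm
    obtain ⟨G, hG, h2⟩ := Pool.Agent.Helper49.LN.k2' D (fun J j => θ j J) (z 0) (z 1) a b hab T
      h1 hT
    exact ⟨G, hG, fun O Δ hD hθ j l => h2 O Δ hD (fun J k => hθ k J) j l⟩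

end Pool.Agent.Helper74.LN
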