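import Pool.Agent.Helper74.LN.LinesIn
import Pool.Agent.Helper8.LV.EngL
import Pool.Agent.Helper8.LV.LineRefine

/-!
# LN-ENGN: the engine in terms of polynomials, several multipliers

Pattern: `Helper8.LV.eng_L` and `eng_A`, with `r = 1` (`multi`, `Fin 1` has a `Unique` instance).
Numbers: `t = q - 3` resp. `q - 2` in `lines`. `w` bounds the transcendence degree of the points.
-/

set_option autoImplicit false

open MvPolynomial

namespace Pool.Agent.Helper74.LN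

open scoped BigOperators
open Pool.Agent.Helper8.LG
open Pool.Agent.Helper8.LV

/-- the form is homogeneous -/
theorem en_hom {k₀ L : Type*} [Field k₀] [Field L] [Algebra k₀ L] {N s : ℕ} (d : ℕ)
    (b : Fin s → ℕ) (hb : ∀ j, b j ≤ d) (F : MvPolynomial (Fin (N + 1)) L)
    (A : MvPolynomial (Fin (N + 1)) k₀) (hA : A.IsHomogeneous d)
    (P : Fin s → MvPolynomial (Fin (N + 1)) k₀) (hP : ∀ j, (P j).IsHomogeneous (b j))
    (H : Fin s → MvPolynomial (Fin (N + 1)) L) (hH : ∀ j, (H j).IsHomogeneous (d - b j))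
    (hFA : F = map (algebraMap k₀ L) A + ∑ j, map (algebraMap k₀ L) (P j) * H j) :
    F.IsHomogeneous d := by
  rw [hFA]
  refine (hA.map _).add (IsHomogeneous.sum _ _ _ fun j _ => ?_)
  have h1 := ((hP j).map (algebraMap k₀ L)).mul (hH j)
  rwa [Nat.add_sub_cancel' (hb j)] at h1

/-- from one moving multiplier to several, for one form, in terms of families -/
theorem en_multi {k₀ L : Type*} [Field k₀] [Field L] [Algebra k₀ L] {N s : ℕ} (d : ℕ)
    (b : Fin s → ℕ) (hb : ∀ j, b j ≤ d) (F : MvPolynomial (Fin (N + 1)) L)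
    (A : MvPolynomial (Fin (N + 1)) k₀) (hA : A.IsHomogeneous d)
    (P : Fin s → MvPolynomial (Fin (N + 1)) k₀) (hP : ∀ j, (P j).IsHomogeneous (b j))
    (H : Fin s → MvPolynomial (Fin (N + 1)) L) (hH : ∀ j, (H j).IsHomogeneous (d - b j))
    (hFA : F = map (algebraMap k₀ L) A + ∑ j, map (algebraMap k₀ L) (P j) * H j) (c : ℕ)
    (hcoef : ((∑ j, (N + (d - b j)).choose N : ℕ) : Cardinal) ≤
      Algebra.trdeg k₀ (IntermediateField.adjoin k₀ {z | ∃ j J, z = coeff J (H j)}) + c)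
    (S : Set (Fin (N + 1) → L))
    (E : ∀ (k : IntermediateField k₀ L) (j : Fin s)
      (aA : Fin 1 → Sym (Fin (N + 1)) d → L) (ap : Fin 1 → Sym (Fin (N + 1)) (b j) → L)
      (ah : Fin 1 → Sym (Fin (N + 1)) (d - b j) → L),
      Fam (fun _ : Fin 1 => d) (fun _ => b j) (fun _ => d - b j) (fun _ => cf d F) aA ap ah →
      Over k (d := fun _ : Fin 1 => d) aA → Over k (d := fun _ : Fin 1 => b j) ap →
      (Fintype.card (Ix (Fin (N + 1)) fun _ : Fin 1 => d - b j) : Cardinal) ≤ Algebra.trdeg k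
        (IntermediateField.adjoin k (Set.range fun p : Ix (Fin (N + 1)) fun _ : Fin 1 => d - b j =>
          ah p.1 p.2)) + c →
      (∀ x i, form (ap i) x = aeval x (P j)) →
      {x ∈ S | aeval x (P j) ≠ 0}.Finite) :
    {x ∈ S | ∃ j, aeval x (P j) ≠ 0}.Finite := by
  classical
  have h := multi (r := 1) (fun _ => d) (fun _ => b) (fun _ => hb) (fun _ => A) (fun _ => hA)
    (fun _ => P) (fun _ => hP) (fun _ => H) (fun _ => hH) c ?_ S ?_
  · refine h.subset ?_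
    rintro x ⟨hx, j, hj⟩
    exact ⟨hx, fun _ => ⟨j, hj⟩⟩
  · have e : ({z | ∃ (_ : Fin 1) (j : Fin s) (J : Fin (N + 1) →₀ ℕ), z = coeff J (H j)} : Set L)
        = {z | ∃ j J, z = coeff J (H j)} := by
      ext z
      constructor
      · rintro ⟨-, h⟩
        exact h
      · intro h
        exact ⟨0, h⟩
    rw [Fin.sum_univ_one, e]
    exact hcoef
  · intro k j A' hA' hFA' hcoef'
    obtain ⟨j0, rfl⟩ : ∃ j0, j = fun _ => j0 :=
      ⟨j 0, funext fun i => by rw [Subsingleton.elim i 0]⟩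
    refine (E k j0 (fun i => cf d (map (algebraMap k L) (A' i)))
      (fun _ => cf (b j0) (map (algebraMap k L) (map (algebraMap k₀ k) (P j0))))
      (fun _ => cf (d - b j0) (H j0)) ?_ ?_ ?_ ?_ ?_).subset ?_
    · exact fam_poly (fun _ => d) (fun _ => b j0) (fun _ => d - b j0)
        (fun _ => (Nat.add_sub_cancel' (hb j0)).symm) (fun _ => F) A'
        (fun _ => map (algebraMap k₀ k) (P j0)) (fun _ => H j0) (fun _ => (hP j0).map _)
        (fun _ => hH j0) (fun i => by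
          rw [hFA, hFA' i, map_map, ← IsScalarTower.algebraMap_eq])
    · exact over_poly (fun _ : Fin 1 => d) A'
    · exact over_poly (fun _ : Fin 1 => b j0) fun _ => map (algebraMap k₀ k) (P j0)
    · rw [card_Ix, ← adjoin_poly k (fun _ : Fin 1 => d - b j0) (fun _ => H j0) (fun _ => hH j0)]
      exact hcoef'
    · intro x i
      rw [form_poly _ ((hP j0).map _), aeval_map_algebraMap]
    · rintro x ⟨hx, hx2⟩
      exact ⟨hx, hx2 0⟩

/-- a space of dimension at most one contains at most one normalised point -/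
theorem en_one {L : Type*} [Field L] {N : ℕ} (W : Submodule L (Fin (N + 1) → L))
    (hW : Module.finrank L W ≤ 1) (i₀ : Fin (N + 1)) :
    {x : Fin (N + 1) → L | x i₀ = 1 ∧ x ∈ W}.Finite := by
  refine Set.Subsingleton.finite ?_
  rintro x ⟨hx, hxW⟩ y ⟨hy, hyW⟩
  obtain ⟨v, hv⟩ := finrank_le_one_iff.1 hW
  obtain ⟨a, ha⟩ := hv ⟨x, hxW⟩
  obtain ⟨b, hb⟩ := hv ⟨y, hyW⟩
  have ha' : a • (v : Fin (N + 1) → L) = x := congrArg Subtype.val ha
  have hb' : b • (v : Fin (N + 1) → L) = y := congrArg Subtype.val hb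
  have h1 : a * (v : Fin (N + 1) → L) i₀ = 1 := by
    rw [← hx, ← ha']
    rfl
  have h2 : b * (v : Fin (N + 1) → L) i₀ = 1 := by
    rw [← hy, ← hb']
    rfl
  have hv0 : (v : Fin (N + 1) → L) i₀ ≠ 0 := by
    intro h
    rw [h, mul_zero] at h1
    exact zero_ne_one h1
  have hab : a = b := mul_right_cancel₀ hv0 (h1.trans h2.symm)
  rw [← ha', ← hb', hab]

/-- the points of the complement lie on finitely many lines -/
theorem eng_open {k₀ L : Type*} [Field k₀] [Field L] [CharZero L] [Algebra k₀ L]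
    (hfg : (⊤ : IntermediateField k₀ L).FG) {N s : ℕ} (w d q : ℕ) (b : Fin s → ℕ)
    (hbq : ∀ j, b j + q ≤ d) (F : MvPolynomial (Fin (N + 1)) L)
    (A : MvPolynomial (Fin (N + 1)) k₀) (hA : A.IsHomogeneous d)
    (P : Fin s → MvPolynomial (Fin (N + 1)) k₀) (hP : ∀ j, (P j).IsHomogeneous (b j))
    (H : Fin s → MvPolynomial (Fin (N + 1)) L) (hH : ∀ j, (H j).IsHomogeneous (d - b j))
    (hFA : F = map (algebraMap k₀ L) A + ∑ j, map (algebraMap k₀ L) (P j) * H j) (c : ℕ)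
    (hcoef : ((∑ j, (N + (d - b j)).choose N : ℕ) : Cardinal) ≤
      Algebra.trdeg k₀ (IntermediateField.adjoin k₀ {z | ∃ j J, z = coeff J (H j)}) + c)
    (h0 : w = N ∨ 2 * N + w + c + 56 ≤ 10 * q) (h1 : 3 * w + 4 + c ≤ 2 * q) (h2 : 3 ≤ q)
    (h3 : 6 * N + 2 * c ≤ (q - 3) * (q - 2)) (R : Subalgebra k₀ L) (hR : R.FG) :
    ∃ Λ : Set (Submodule L (Fin (N + 1) → L)), Λ.Finite ∧
      (∀ W ∈ Λ, Module.finrank L W ≤ 2) ∧ ∀ (i₀ : Fin (N + 1)) (x : Fin (N + 1) → L),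
      x i₀ = 1 → Algebra.trdeg k₀ (IntermediateField.adjoin k₀ (Set.range x)) ≤ w →
      (∃ j, aeval x (P j) ≠ 0) → eval x F ≠ 0 →
      (∀ J : Sym (Fin (N + 1)) d, mon x J / eval x F ∈ R) → ∃ W ∈ Λ, x ∈ W := by
  classical
  have hb : ∀ j, b j ≤ d := fun j => (Nat.le_add_right _ _).trans (hbq j)
  have hdF := en_hom d b hb F A hA P hP H hH hFA
  have hform : ∀ x : Fin (N + 1) → L, form (cf d F) x = eval x F := fun x => form_cf _ hdF x
  obtain ⟨m, rfl⟩ : ∃ m, q = m + 3 := ⟨q - 3, by omega⟩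
  have e1 : m + 3 - 3 = m := by omega
  have e2 : m + 3 - 2 = m + 1 := by omega
  rw [e1, e2] at h3
  have key : ∀ i₀ : Fin (N + 1), ∃ Λ : Set (Submodule L (Fin (N + 1) → L)), Λ.Finite ∧
      (∀ W ∈ Λ, Module.finrank L W ≤ 2) ∧ ∀ (x : Fin (N + 1) → L),
      x i₀ = 1 → Algebra.trdeg k₀ (IntermediateField.adjoin k₀ (Set.range x)) ≤ w →
      (∃ j, aeval x (P j) ≠ 0) → eval x F ≠ 0 →
      (∀ J : Sym (Fin (N + 1)) d, mon x J / eval x F ∈ R) → ∃ W ∈ Λ, x ∈ W := by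
    intro i₀
    have hmain : ∀ S' ⊆ {x : Fin (N + 1) → L | x i₀ = 1 ∧
        Algebra.trdeg k₀ (IntermediateField.adjoin k₀ (Set.range x)) ≤ w ∧
        (∃ j, aeval x (P j) ≠ 0) ∧ eval x F ≠ 0 ∧
        ∀ J : Sym (Fin (N + 1)) d, mon x J / eval x F ∈ R}, S'.Infinite →
        ∃ W : Submodule L (Fin (N + 1) → L), Module.finrank L W ≤ 2 ∧ (S' ∩ W).Infinite := by
      intro S' hS' hinf
      by_contra hcon
      push Not at hcon
      refine hinf ((en_multi d b hb F A hA P hP H hH hFA c hcoef S' ?_).subset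
        fun x hx => ⟨hx, (hS' hx).2.2.1⟩)
      intro k j aA ap ah hFam hoA hoP hc hfP
      obtain ⟨R', hR', hRR'⟩ := subalgebra_tower k R hR
      have hj := hbq j
      obtain ⟨Λ, hΛ, hΛ2, hcov⟩ := lines (fg_tower k hfg) (fun _ : Fin 1 => d) (fun _ => b j)
        (fun _ => d - b j) (fun _ => cf d F) aA ap ah hFam hoA hoP (fun _ => by omega) c hc
        ∅ i₀ w m
        (by
          rw [Fintype.card_fin, Finset.compl_empty, Finset.card_univ, Fintype.card_fin]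
          rcases h0 with h0 | h0
          · left; omega
          · right; omega)
        (by rw [Finset.compl_empty, Finset.card_univ, Fintype.card_fin]; omega)
        (by rw [Finset.compl_empty, Finset.card_univ, Fintype.card_fin]; omega)
        (by rw [Fintype.card_fin]; omega) R' hR'
      refine (Set.Finite.biUnion hΛ (t := fun W => S' ∩ (W : Set (Fin (N + 1) → L)))
        fun W hW => hcon W (hΛ2 W hW)).subset ?_
      rintro x ⟨hx, h6⟩
      obtain ⟨h3, hw, -, h4, h5⟩ := hS' hx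
      obtain ⟨W, hW, hxW⟩ := hcov x h3 ⟨fun i hi => absurd hi (Finset.notMem_empty i),
        fun i hi => by rw [hform]; exact h4, fun i hi J => by
          rw [hform]
          exact isIntegral_algebraMap (R := R'.toSubring) (x := ⟨_, hRR' _ (h5 J)⟩)⟩
        (fun i => by rw [hfP]; exact h6) ((trdeg_mono' k _).trans hw)
      rw [Set.mem_iUnion₂]
      exact ⟨W, hW, hx, hxW⟩
    obtain ⟨Λ, h1, h2, h3⟩ := Pool.Agent.Helper10.LB.greedy _ hmain i₀ fun x hx => hx.1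
    exact ⟨Λ, h1, h2, fun x hx hw hP hF hU => h3 x ⟨hx, hw, hP, hF, hU⟩⟩
  choose Λ hΛ1 hΛ2 hΛ3 using key
  refine ⟨⋃ i₀, Λ i₀, Set.finite_iUnion hΛ1, fun W hW => ?_, fun i₀ x h2 hw h3 h4 h5 => ?_⟩
  · obtain ⟨i₀, h⟩ := Set.mem_iUnion.1 hW
    exact hΛ2 i₀ W h
  · obtain ⟨W, hW, hx⟩ := hΛ3 i₀ x h2 hw h3 h4 h5
    exact ⟨W, Set.mem_iUnion.2 ⟨i₀, hW⟩, hx⟩

/-- the points of the hypersurface outside finitely many lines contained in it are finite in
number -/
theorem eng_closed {k₀ L : Type*} [Field k₀] [Field L] [CharZero L] [Algebra k₀ L]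
    (hfg : (⊤ : IntermediateField k₀ L).FG) {N s : ℕ} (w d q : ℕ) (b : Fin s → ℕ)
    (hbq : ∀ j, b j + q ≤ d) (F : MvPolynomial (Fin (N + 1)) L)
    (A : MvPolynomial (Fin (N + 1)) k₀) (hA : A.IsHomogeneous d)
    (P : Fin s → MvPolynomial (Fin (N + 1)) k₀) (hP : ∀ j, (P j).IsHomogeneous (b j))
    (H : Fin s → MvPolynomial (Fin (N + 1)) L) (hH : ∀ j, (H j).IsHomogeneous (d - b j))
    (hFA : F = map (algebraMap k₀ L) A + ∑ j, map (algebraMap k₀ L) (P j) * H j) (c : ℕ)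
    (hcoef : ((∑ j, (N + (d - b j)).choose N : ℕ) : Cardinal) ≤
      Algebra.trdeg k₀ (IntermediateField.adjoin k₀ {z | ∃ j J, z = coeff J (H j)}) + c)
    (h0 : w = N ∨ 2 * N + w + c + 55 ≤ 10 * q) (h1 : 3 * w + 3 + c ≤ 2 * q)
    (h3 : 6 * N + 2 * c ≤ (q - 2) * (q - 1)) :
    ∃ Λ : Set (Submodule L (Fin (N + 1) → L)), Λ.Finite ∧
      (∀ W ∈ Λ, Module.finrank L W = 2 ∧ ∀ y ∈ W, eval y F = 0) ∧ ∀ i₀ : Fin (N + 1),
      {x : Fin (N + 1) → L | x i₀ = 1 ∧
        Algebra.trdeg k₀ (IntermediateField.adjoin k₀ (Set.range x)) ≤ w ∧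
        (∃ j, aeval x (P j) ≠ 0) ∧ eval x F = 0 ∧ ∀ W ∈ Λ, x ∉ W}.Finite := by
  classical
  have hb : ∀ j, b j ≤ d := fun j => (Nat.le_add_right _ _).trans (hbq j)
  have hdF := en_hom d b hb F A hA P hP H hH hFA
  have hform : ∀ x : Fin (N + 1) → L, form (cf d F) x = eval x F := fun x => form_cf _ hdF x
  obtain ⟨m, rfl⟩ : ∃ m, q = m + 2 := ⟨q - 2, by omega⟩
  have e1 : m + 2 - 2 = m := by omega
  have e2 : m + 2 - 1 = m + 1 := by omega
  rw [e1, e2] at h3
  have key : ∀ i₀ : Fin (N + 1), ∃ Λ : Set (Submodule L (Fin (N + 1) → L)), Λ.Finite ∧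
      (∀ W ∈ Λ, Module.finrank L W ≤ 2) ∧ ∀ (x : Fin (N + 1) → L),
      x i₀ = 1 → Algebra.trdeg k₀ (IntermediateField.adjoin k₀ (Set.range x)) ≤ w →
      (∃ j, aeval x (P j) ≠ 0) → eval x F = 0 → ∃ W ∈ Λ, x ∈ W := by
    intro i₀
    have hmain : ∀ S' ⊆ {x : Fin (N + 1) → L | x i₀ = 1 ∧
        Algebra.trdeg k₀ (IntermediateField.adjoin k₀ (Set.range x)) ≤ w ∧
        (∃ j, aeval x (P j) ≠ 0) ∧ eval x F = 0}, S'.Infinite →
        ∃ W : Submodule L (Fin (N + 1) → L), Module.finrank L W ≤ 2 ∧ (S' ∩ W).Infinite := by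
      intro S' hS' hinf
      by_contra hcon
      push Not at hcon
      refine hinf ((en_multi d b hb F A hA P hP H hH hFA c hcoef S' ?_).subset
        fun x hx => ⟨hx, (hS' hx).2.2.1⟩)
      intro k j aA ap ah hFam hoA hoP hc hfP
      have hj := hbq j
      obtain ⟨S₀, Λ, hS₀, hΛ, hΛ2, hcov⟩ := lines_in (fg_tower k hfg) (fun _ : Fin 1 => d)
        (fun _ => b j) (fun _ => d - b j) (fun _ => cf d F) aA ap ah hFam hoA hoP
        (fun _ => by omega) c hc i₀ w m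
        (by
          rw [Fintype.card_fin]
          rcases h0 with h0 | h0
          · left; omega
          · right; omega)
        (by omega) (by omega) (by rw [Fintype.card_fin]; omega)
      refine (hS₀.union (Set.Finite.biUnion hΛ (t := fun W => S' ∩ (W : Set (Fin (N + 1) → L)))
        fun W hW => hcon W (hΛ2 W hW).1.le)).subset ?_
      rintro x ⟨hx, h6⟩
      obtain ⟨h3, hw, -, h4⟩ := hS' hx
      rcases hcov x h3 (fun i => by rw [hform]; exact h4) (fun i => by rw [hfP]; exact h6)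
        ((trdeg_mono' k _).trans hw) with h | ⟨W, hW, hxW⟩
      · exact Or.inl h
      · right
        rw [Set.mem_iUnion₂]
        exact ⟨W, hW, hx, hxW⟩
    obtain ⟨Λ, h1, h2, h3⟩ := Pool.Agent.Helper10.LB.greedy _ hmain i₀ fun x hx => hx.1
    exact ⟨Λ, h1, h2, fun x hx hw hP hF => h3 x ⟨hx, hw, hP, hF⟩⟩
  choose Λ hΛ1 hΛ2 hΛ3 using key
  refine ⟨{W ∈ ⋃ i₀, Λ i₀ | Module.finrank L W = 2 ∧ ∀ y ∈ W, eval y F = 0},
    (Set.finite_iUnion hΛ1).subset fun W hW => hW.1, fun W hW => hW.2, fun i₀ => ?_⟩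
  refine (Set.Finite.biUnion (hΛ1 i₀) (t := fun W => {x : Fin (N + 1) → L | x i₀ = 1 ∧
    (∃ j, aeval x (P j) ≠ 0) ∧ eval x F = 0 ∧ x ∈ W ∧
      ¬ (Module.finrank L W = 2 ∧ ∀ y ∈ W, eval y F = 0)}) fun W hW => ?_).subset ?_
  · by_cases hr : Module.finrank L W ≤ 1
    · refine (en_one W hr i₀).subset ?_
      rintro x ⟨h2, -, -, h3, -⟩
      exact ⟨h2, h3⟩
    · have hr2 : Module.finrank L W = 2 := le_antisymm (hΛ2 i₀ W hW) (by omega)
      by_cases hz : ∀ y ∈ W, eval y F = 0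
      · refine Set.Finite.subset Set.finite_empty ?_
        rintro x ⟨-, -, -, -, h⟩
        exact absurd ⟨hr2, hz⟩ h
      · by_cases hs : Nonempty (Fin s)
        · obtain ⟨j⟩ := hs
          have hj := hbq j
          push Not at hz
          obtain ⟨Γ, hΓ1, hΓ2, hΓ3⟩ := line_zeros (by omega : 0 < d) F hdF W hr2.le hz
          refine (Set.Finite.biUnion hΓ1 (t := fun W' => {x : Fin (N + 1) → L |
            x i₀ = 1 ∧ x ∈ W'}) fun W' hW' => en_one W' (hΓ2 W' hW').1 i₀).subset ?_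
          rintro x ⟨h2, -, h3, h4, -⟩
          obtain ⟨W', hW', hx⟩ := hΓ3 x h4 h3
          rw [Set.mem_iUnion₂]
          exact ⟨W', hW', h2, hx⟩
        · refine Set.Finite.subset Set.finite_empty ?_
          rintro x ⟨-, ⟨j, -⟩, -⟩
          exact hs ⟨j⟩
  · rintro x ⟨h2, hw, h3, h4, h5⟩
    obtain ⟨W, hW, hx⟩ := hΛ3 i₀ x h2 hw h3 h4
    rw [Set.mem_iUnion₂]
    exact ⟨W, hW, h2, h3, h4, hx, fun h => h5 W ⟨Set.mem_iUnion.2 ⟨i₀, hW⟩, h⟩ hx⟩

/-- finiteness if there are no lines -/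
theorem eng_none {k₀ L : Type*} [Field k₀] [Field L] [CharZero L] [Algebra k₀ L]
    (hfg : (⊤ : IntermediateField k₀ L).FG) {N s : ℕ} (w d q : ℕ) (b : Fin s → ℕ)
    (hbq : ∀ j, b j + q ≤ d) (F : MvPolynomial (Fin (N + 1)) L)
    (A : MvPolynomial (Fin (N + 1)) k₀) (hA : A.IsHomogeneous d)
    (P : Fin s → MvPolynomial (Fin (N + 1)) k₀) (hP : ∀ j, (P j).IsHomogeneous (b j))
    (H : Fin s → MvPolynomial (Fin (N + 1)) L) (hH : ∀ j, (H j).IsHomogeneous (d - b j))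
    (hFA : F = map (algebraMap k₀ L) A + ∑ j, map (algebraMap k₀ L) (P j) * H j) (c : ℕ)
    (hcoef : ((∑ j, (N + (d - b j)).choose N : ℕ) : Cardinal) ≤
      Algebra.trdeg k₀ (IntermediateField.adjoin k₀ {z | ∃ j J, z = coeff J (H j)}) + c)
    (h0 : w = N ∨ 2 * N + w + c + 55 ≤ 10 * q) (h1 : 3 * w + 3 + c ≤ 2 * q)
    (h3 : 6 * N + 2 * c ≤ (q - 2) * (q - 1)) (h2 : 2 * N + c ≤ q + 2) (i₀ : Fin (N + 1)) :
    {x : Fin (N + 1) → L | x i₀ = 1 ∧
      Algebra.trdeg k₀ (IntermediateField.adjoin k₀ (Set.range x)) ≤ w ∧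
      (∃ j, aeval x (P j) ≠ 0) ∧ eval x F = 0}.Finite := by
  classical
  have hb : ∀ j, b j ≤ d := fun j => (Nat.le_add_right _ _).trans (hbq j)
  have hdF := en_hom d b hb F A hA P hP H hH hFA
  have hform : ∀ x : Fin (N + 1) → L, form (cf d F) x = eval x F := fun x => form_cf _ hdF x
  obtain ⟨m, rfl⟩ : ∃ m, q = m + 2 := ⟨q - 2, by omega⟩
  have e1 : m + 2 - 2 = m := by omega
  have e2 : m + 2 - 1 = m + 1 := by omega
  rw [e1, e2] at h3
  refine (en_multi d b hb F A hA P hP H hH hFA c hcoef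
    {x : Fin (N + 1) → L | x i₀ = 1 ∧
      Algebra.trdeg k₀ (IntermediateField.adjoin k₀ (Set.range x)) ≤ w ∧ eval x F = 0}
    ?_).subset ?_
  · intro k j aA ap ah hFam hoA hoP hc hfP
    have hj := hbq j
    have hfin := lines_none (fg_tower k hfg) (fun _ : Fin 1 => d)
      (fun _ => b j) (fun _ => d - b j) (fun _ => cf d F) aA ap ah hFam hoA hoP
      (fun _ => by omega) c hc i₀ w m
      (by
        rw [Fintype.card_fin]
        rcases h0 with h0 | h0
        · left; omega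
        · right; omega)
      (by omega) (by omega) (by rw [Fintype.card_fin]; omega)
      (by rw [Fintype.card_fin]; omega)
    refine hfin.subset ?_
    rintro x ⟨⟨h3, hw, h4⟩, h5⟩
    exact ⟨h3, (trdeg_mono' k _).trans hw, fun i => by rw [hfP]; exact h5,
      fun i => by rw [hform]; exact h4⟩
  · rintro x ⟨h3, hw, h4, h5⟩
    exact ⟨⟨h3, hw, h5⟩, h4⟩

/-- the numerical condition for `w = N`, complement -/
theorem num_open {N c q : ℕ} (hN : 3 ≤ N) (h : 3 * N + 4 + c ≤ 2 * q) :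
    3 ≤ q ∧ 6 * N + 2 * c ≤ (q - 3) * (q - 2) := by
  obtain ⟨t, rfl⟩ : ∃ t, q = t + 3 := ⟨q - 3, by omega⟩
  refine ⟨by omega, ?_⟩
  have h1 : t + 3 - 3 = t := by omega
  have h2 : t + 3 - 2 = t + 1 := by omega
  rw [h1, h2]
  obtain ⟨u, hu⟩ : ∃ u, u = 3 * N + c := ⟨_, rfl⟩
  have h3 : u ≤ 2 * t + 2 := by omega
  have h4 : 9 ≤ u := by omega
  have h5 : 4 ≤ t := by omega
  have h6 : 6 * N + 2 * c = 2 * u := by omega
  rw [h6]
  nlinarith

/-- the numerical condition for `w = N`, hypersurface -/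
theorem num_closed {N c q : ℕ} (hN : 3 ≤ N) (h : 3 * N + 3 + c ≤ 2 * q) :
    6 * N + 2 * c ≤ (q - 2) * (q - 1) := by
  obtain ⟨t, rfl⟩ : ∃ t, q = t + 2 := ⟨q - 2, by omega⟩
  have h1 : t + 2 - 2 = t := by omega
  have h2 : t + 2 - 1 = t + 1 := by omega
  rw [h1, h2]
  obtain ⟨u, hu⟩ : ∃ u, u = 3 * N + c := ⟨_, rfl⟩
  have h3 : u ≤ 2 * t + 1 := by omega
  have h4 : 9 ≤ u := by omega
  have h6 : 6 * N + 2 * c = 2 * u := by omega
  rw [h6]
  nlinarith

end Pool.Agent.Helper74.LN
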