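import Pool.Agent.Helper74.LG.KeyAbs

/-!
# Project LN: definitions

Points and lines of generic hypersurfaces. `Lam V g = ∑_s (coefficient of X^s in g) V(s)`, the sum
over the monomials of degree `d`.
-/

set_option autoImplicit false

namespace Pool.Agent.Helper74.LN

open MvPolynomial
open Pool.Agent.Helper8.LG (mon form Ix Bdd RowBdd)
open Pool.Agent.Helper74.LG (scl)

section

variable {E : Type*} [Field E] {σ : Type*} [Fintype σ] [DecidableEq σ]

/-- the exponent vector of a multiset of `d` indices -/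
noncomputable def ex {d : ℕ} (s : Sym σ d) : σ →₀ ℕ := Multiset.toFinsupp (s : Multiset σ)

/-- the linear map `g ↦ ∑_s (coefficient of X^s in g) V(s)` -/
noncomputable def Lam {M : Type*} [AddCommGroup M] [Module E M] {d : ℕ} (V : Sym σ d → M) :
    MvPolynomial σ E →ₗ[E] M :=
  ∑ s : Sym σ d, (LinearMap.toSpanSingleton E M (V s)).comp (lcoeff E (ex s))

/-- the linear form `x_j X_l - x_l X_j` -/
noncomputable def two (x : σ → E) (j l : σ) : MvPolynomial σ E := C (x j) * X l - C (x l) * X j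

/-- the linear form with coefficients `h` -/
noncomputable def lin (h : σ → E) : MvPolynomial σ E := ∑ l, C (h l) * X l

/-- a polynomial with integral coefficients, over `E` -/
noncomputable def zp (E : Type*) [Field E] {σ : Type*} (P : MvPolynomial σ ℤ) :
    MvPolynomial σ E := map (Int.castRingHom E) P

/-- the Plücker coordinates of the line through `z 0` and `z 1` -/
def pl (z : Fin 2 → σ → E) (j l : σ) : E := z 0 j * z 1 l - z 0 l * z 1 j

/-- the linear form `P_jl X_m - P_jm X_l + P_lm X_j`, vanishing on the line -/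
noncomputable def thr (z : Fin 2 → σ → E) (j l m : σ) : MvPolynomial σ E :=
  C (pl z j l) * X m - C (pl z j m) * X l + C (pl z l m) * X j

/-- the data `(P, j, l)` of a block -/
abbrev Blk (σ : Type*) := MvPolynomial σ ℤ × σ × σ

variable {M : Type*} [AddCommGroup M] [Module E M] {d : ℕ}

/-- the two columns of a block: `P (x_(i₀) X_j - x_j X_(i₀))` and `P (x_(i₀) X_l - x_l X_(i₀))` -/
noncomputable def bv (V : Sym σ d → M) (x : σ → E) (i₀ : σ) (β : Blk σ) (e : Fin 2) : M :=
  Lam V (zp E β.1 * two x i₀ (if e = 0 then β.2.1 else β.2.2))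

/-- the single columns `X^m (x_j X_l - x_l X_j)` -/
noncomputable def sv (V : Sym σ d → M) (x : σ → E) (s : (σ →₀ ℕ) × σ × σ) : M :=
  Lam V (monomial s.1 1 * two x s.2.1 s.2.2)

/-- the columns of the forms `X^m (P_jl X_t - P_jt X_l + P_lt X_j)` -/
noncomputable def jc (V : Sym σ d → M) (z : Fin 2 → σ → E) (q : (σ →₀ ℕ) × σ × σ × σ) : M :=
  Lam V (monomial q.1 1 * thr z q.2.1 q.2.2.1 q.2.2.2)

/-- the columns of `(x_a X_b - x_b X_a) X_a^(d-1-k) X_b^k` -/
noncomputable def bs (V : Sym σ d → M) (x : σ → E) (a b : σ) (k : ℕ) : M :=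
  Lam V (two x a b * (X a ^ (d - 1 - k) * X b ^ k))

end

/-- The columns before and after the normalisation `x ↦ x / c`. -/
structure Shift {E σ ρ : Type*} [Field E] {d : ℕ} (c : E) (eul eul' : σ ⊕ ρ → E)
    (V V' : Sym σ d → σ ⊕ ρ → E) : Prop where
  eul_eq : eul = scl c eul'
  col_eq : ∀ s, ∃ b : E, V s = scl c (V' s) + b • eul

/-- The situation at a valuation ring: `x_(l₀)` is a maximal coordinate, the columns of the
normalised point `x / x_(l₀)` are bounded by `Δ⁻¹`. -/
structure At {E σ ρ : Type*} [Field E] {d : ℕ} (x : σ → E) (eul : σ ⊕ ρ → E)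
    (V : Sym σ d → σ ⊕ ρ → E) (O : ValuationSubring E) (Δ : E) (l₀ : σ) (eul' : σ ⊕ ρ → E)
    (V' : Sym σ d → σ ⊕ ρ → E) : Prop where
  ne : x l₀ ≠ 0
  le : ∀ l, x l / x l₀ ∈ O
  mem : Δ ∈ O
  shift : Shift (x l₀) eul eul' V V'
  beul : ∀ r, Δ * eul' r ∈ O
  bcol : ∀ s r, Δ * V' s r ∈ O

/-- `G x_l` is integral up to a power of `Δ` at all valuation rings. -/
def KeyX {E σ ρ : Type*} [Field E] [Fintype σ] [Fintype ρ] {d : ℕ} (x : σ → E)
    (eul : σ ⊕ ρ → E) (V : Sym σ d → σ ⊕ ρ → E) (G : E) : Prop :=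
  ∀ (O : ValuationSubring E) (Δ : E) (l₀ : σ) (eul' : σ ⊕ ρ → E) (V' : Sym σ d → σ ⊕ ρ → E),
    At x eul V O Δ l₀ eul' V' → Δ ^ (Fintype.card σ + Fintype.card ρ) * (G * x l₀) ∈ O

/-- There is a line through `x` which moves in at least `T + 1` dimensions. -/
def LineCase {E σ ρ : Type*} [Field E] [Fintype σ] [DecidableEq σ] [Fintype ρ] {d : ℕ}
    (x : σ → E) (eul : σ ⊕ ρ → E) (V : Sym σ d → σ ⊕ ρ → E) (T : ℕ) (y : σ → E) : Prop :=
  (∃ j l, x j * y l - x l * y j ≠ 0) ∧
    Module.finrank E ↥(Submodule.span E {eul} ⊔ Submodule.span E (Set.range (jc V ![x, y]))) +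
        (T + 1) ≤
      Module.finrank E ↥(Submodule.span E {eul} ⊔ Submodule.span E (Set.range V))

section

variable {E : Type*} [Field E] {σ τ : Type*} [Fintype σ] [DecidableEq σ]

/-- the columns `(D_s z_0; D_s z_1; θ(s))` -/
def mu {d : ℕ} (D : Sym σ d → Derivation ℤ E E) (θ : τ → Sym σ d → E) (z : Fin 2 → σ → E)
    (s : Sym σ d) : (Fin 2 × σ) ⊕ τ → E :=
  Sum.elim (fun r => D s (z r.1 r.2)) fun j => θ j s

/-- the columns `(z_f in the place e)` -/
def w4 (z : Fin 2 → σ → E) (ef : Fin 2 × Fin 2) : (Fin 2 × σ) ⊕ τ → E :=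
  Sum.elim (fun r => if r.1 = ef.1 then z ef.2 r.2 else 0) fun _ => 0

/-- the constant columns: `E_lm z` and the unit vectors of `τ` -/
def cst [DecidableEq τ] (z : Fin 2 → σ → E) : (σ × σ) ⊕ τ → (Fin 2 × σ) ⊕ τ → E :=
  Sum.elim (fun lm => Sum.elim (fun r => if r.2 = lm.1 then z r.1 lm.2 else 0) fun _ => 0)
    fun j => Sum.elim (fun _ => 0) fun j' => if j' = j then 1 else 0

/-- the space of the forms vanishing on the line -/
noncomputable def Jsp {d : ℕ} (D : Sym σ d → Derivation ℤ E E) (θ : τ → Sym σ d → E)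
    (z : Fin 2 → σ → E) : Submodule E ((Fin 2 × σ) ⊕ τ → E) :=
  Submodule.span E (Set.range (w4 z)) ⊔ Submodule.span E (Set.range (jc (mu D θ z) z))

/-- the space of all forms -/
noncomputable def Asp {d : ℕ} (D : Sym σ d → Derivation ℤ E E) (θ : τ → Sym σ d → E)
    (z : Fin 2 → σ → E) : Submodule E ((Fin 2 × σ) ⊕ τ → E) :=
  Submodule.span E (Set.range (w4 z)) ⊔ Submodule.span E (Set.range (mu D θ z))

/-- The line moves in at least `T` dimensions under the binary forms. -/
def Moves [Fintype τ] {d : ℕ} (T : ℕ) (D : Sym σ d → Derivation ℤ E E) (θ : τ → Sym σ d → E)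
    (z : Fin 2 → σ → E) : Prop :=
  Module.finrank E (Jsp D θ z) + T ≤ Module.finrank E (Asp D θ z)

end

/-- `G x_l` is integral up to `Δ^M` at all valuation rings where `Δ` bounds the derivations, the
corrections and the logarithmic rows. -/
def KeyP {E : Type*} [Field E] {σ ι τ P : Type*} [Fintype σ] [DecidableEq σ] (M : ℕ) (d : ι → ℕ)
    (a : (i : ι) → Sym σ (d i) → E) (D : P → Derivation ℤ E E) (θ : τ → P → E) (Z : Finset ι)
    (x : σ → E) (G : E) : Prop :=
  ∀ (O : ValuationSubring E) (Δ : E), Bdd D Δ O → (∀ j s, Δ * θ j s ∈ O) →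
    (∀ i ∉ Z, RowBdd D Δ O x (form (a i)) 1 0) → ∀ l, Δ ^ M * (G * x l) ∈ O

/-- `G P_jl` is integral up to a power of `Δ` at all valuation rings where `Δ` bounds the
derivations and the corrections. -/
def KeyL {E σ τ : Type*} [Field E] [Fintype σ] [Fintype τ] {d : ℕ}
    (D : Sym σ d → Derivation ℤ E E) (θ : τ → Sym σ d → E) (z : Fin 2 → σ → E) (G : E) : Prop :=
  ∀ (O : ValuationSubring E) (Δ : E), Bdd D Δ O → (∀ j s, Δ * θ j s ∈ O) →
    ∀ j l, Δ ^ (2 * Fintype.card σ + Fintype.card τ) * (G * pl z j l) ∈ O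

end Pool.Agent.Helper74.LN
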