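import Pool.Agent.Helper74.LN.Defs
import Pool.Agent.Helper8.LV.Bound
import Pool.Agent.Helper49.LV.Rows

/-!
# LN-BOUNDL: bounded lines lie in a finite-dimensional space

Copy of `Helper49.LV.bounded_line` (or of the first round of `Helper8.LV.bounded`) with the
conclusion `KeyL` of `k2` as a hypothesis; there are no rows.
-/

set_option autoImplicit false

namespace Pool.Agent.Helper74.LN

open scoped BigOperators
open Pool.Agent.Helper8.LG
open Pool.Agent.Helper8.LV (Fam Mov Over)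

private theorem bnInv {L : Type*} [Field L] (D : Derivation ℤ L L) (f : L) :
    D f⁻¹ = -(f⁻¹ ^ 2) * D f := by
  have h := Derivation.leibniz_inv D f
  rw [h, smul_eq_mul]

private theorem bnDual {L σ ι τ : Type*} [Field L] [DecidableEq σ] [DecidableEq ι] [Fintype τ]
    (d : ι → ℕ) (a : (i : ι) → Sym σ (d i) → L)
    (D : Ix σ d → Derivation ℤ L L) (jj : τ → Ix σ d) (θ : τ → Ix σ d → L)
    (hD : Dual d a D jj θ) (T : Finset (Ix σ d)) (hT : ∀ j, jj j ∉ T) (q : Ix σ d) (p : T) :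
    D q (a p.1.1 p.1.2) = if q = p.1 then 1 else 0 := by
  have h := hD q p.1
  rw [Finset.sum_eq_zero, sub_zero] at h
  · exact h
  · intro j _
    rw [if_neg]
    rintro h1
    exact hT j (h1 ▸ p.2)

private theorem bnStable {k L σ ι τ : Type*} [Field k] [Field L] [Algebra k L]
    [DecidableEq σ] [DecidableEq ι] [Fintype τ]
    (d : ι → ℕ) (a : (i : ι) → Sym σ (d i) → L)
    (D : Ix σ d → Derivation ℤ L L) (jj : τ → Ix σ d) (θ : τ → Ix σ d → L)
    (hD : Dual d a D jj θ) (T : Finset (Ix σ d)) (hT : ∀ j, jj j ∉ T)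
    (hDk : ∀ p (c : k), D p (algebraMap k L c) = 0) (p : T) (q : Ix σ d) :
    ∀ f ∈ others (k := k) (fun p : T => a p.1.1 p.1.2) p,
      D q f ∈ others (k := k) (fun p : T => a p.1.1 p.1.2) p := by
  intro f hf
  have hf' : f ∈ IntermediateField.adjoin k ((fun p : T => a p.1.1 p.1.2) '' {p}ᶜ) := hf
  show D q f ∈ IntermediateField.adjoin k ((fun p : T => a p.1.1 p.1.2) '' {p}ᶜ)
  induction hf' using IntermediateField.adjoin_induction with
  | mem x hx =>
    obtain ⟨r, _, rfl⟩ := hx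
    show D q (a r.1.1 r.1.2) ∈ _
    rw [bnDual d a D jj θ hD T hT q r]
    split_ifs
    · exact one_mem _
    · exact zero_mem _
  | algebraMap c =>
    rw [hDk q c]
    exact zero_mem _
  | add x y hx hy hx' hy' =>
    rw [map_add]
    exact add_mem (hx' hx) (hy' hy)
  | inv x hx hx' =>
    rw [bnInv]
    exact mul_mem (neg_mem (pow_mem (inv_mem hx) 2)) (hx' hx)
  | mul x y hx hy hx' hy' =>
    rw [Derivation.leibniz, smul_eq_mul, smul_eq_mul]
    exact add_mem (mul_mem hx (hy' hy)) (mul_mem hy (hx' hx))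

private theorem bnVar {L σ ι τ : Type*} [Field L] [DecidableEq σ] [DecidableEq ι] [Fintype τ]
    (d : ι → ℕ) (a : (i : ι) → Sym σ (d i) → L)
    (D : Ix σ d → Derivation ℤ L L) (jj : τ → Ix σ d) (θ : τ → Ix σ d → L)
    (hD : Dual d a D jj θ) (T : Finset (Ix σ d)) (hT : ∀ j, jj j ∉ T) (p : T) (q : Ix σ d)
    (R : Subring L) :
    D q (a p.1.1 p.1.2) ∈ R := by
  rw [bnDual d a D jj θ hD T hT q p]
  split_ifs
  · exact one_mem _
  · exact zero_mem _

private theorem bnVarInv {L σ ι τ : Type*} [Field L] [DecidableEq σ] [DecidableEq ι] [Fintype τ]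
    (d : ι → ℕ) (a : (i : ι) → Sym σ (d i) → L)
    (D : Ix σ d → Derivation ℤ L L) (jj : τ → Ix σ d) (θ : τ → Ix σ d → L)
    (hD : Dual d a D jj θ) (T : Finset (Ix σ d)) (hT : ∀ j, jj j ∉ T) (p : T) (q : Ix σ d)
    (R : Subring L) (hR : (a p.1.1 p.1.2)⁻¹ ∈ R) :
    D q (a p.1.1 p.1.2)⁻¹ ∈ R := by
  rw [bnInv]
  exact mul_mem (neg_mem (pow_mem hR 2)) (bnVar d a D jj θ hD T hT p q R)

/-- In one direction the entries have bounded poles. -/
private theorem bnDir {L : Type*} [Field L] [CharZero L] {σ τ : Type*} [Fintype σ]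
    [DecidableEq σ] [Fintype τ] {d : ℕ} (D : Sym σ d → Derivation ℤ L L)
    (θ : τ → Sym σ d → L)
    (E₀ : Subfield L) (t : L) (ht : Transcendental E₀ t)
    (hfin : FiniteDimensional (Subfield.closure ((E₀ : Set L) ∪ {t})) L)
    (hE₀ : ∀ p, ∀ f ∈ E₀, D p f ∈ E₀)
    (hDt : ∀ p, D p t ∈ Subring.closure ((E₀ : Set L) ∪ {t})) :
    ∃ Δ : L, Δ ≠ 0 ∧ ∀ (z : Fin 2 → σ → L) (G : L), KeyL D θ z G →
      ∀ j l, Δ * (G * pl z j l) ∈ intCl E₀ t := by
  obtain ⟨Δ₀, hΔc, hΔ0, hΔD, hΔS⟩ := exists_bound E₀ t ht hfin D hE₀ hDt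
    (Set.range fun r : τ × Sym σ d => θ r.1 r.2) (Set.finite_range _)
  obtain ⟨hDed, hFrac⟩ := intCl_dedekind E₀ t ht hfin
  have hcl : Subring.closure ((E₀ : Set L) ∪ {t}) ≤ intCl E₀ t := by
    intro f hf
    exact isIntegral_algebraMap (R := Subring.closure ((E₀ : Set L) ∪ {t})) (x := ⟨f, hf⟩)
  have hΔR : Δ₀ ∈ intCl E₀ t := hcl hΔc
  refine ⟨Δ₀ ^ (2 * Fintype.card σ + Fintype.card τ), pow_ne_zero _ hΔ0,
    fun z G hkey j l => ?_⟩
  refine mem_of (intCl E₀ t) _ fun O hO => ?_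
  exact hkey O Δ₀ (bdd_of (intCl E₀ t) D Δ₀ hΔR hΔD O hO)
    (fun j s => hO (hΔS _ ⟨(j, s), rfl⟩)) j l

theorem bounded_ln {k L : Type*} [Field k] [Field L] [CharZero L] [Algebra k L]
    {σ ι τ : Type*} [Fintype σ] [DecidableEq σ] [Fintype ι] [DecidableEq ι] [Unique ι]
    [Fintype τ] (q : ι → ℕ) (ah : (i : ι) → Sym σ (q i) → L) (T : Finset (Ix σ q))
    (hind : AlgebraicIndependent k (fun p : T => ah p.1.1 p.1.2))
    (hfin : FiniteDimensional
      (IntermediateField.adjoin k (Set.range fun p : T => ah p.1.1 p.1.2)) L)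
    (D : Ix σ q → Derivation ℤ L L) (jj : τ → Ix σ q) (θ : τ → Ix σ q → L)
    (hD : Dual q ah D jj θ) (hT : ∀ j, jj j ∉ T)
    (hDk : ∀ p (c : k), D p (algebraMap k L c) = 0) :
    ∃ V : Submodule k L, FiniteDimensional k V ∧ ∀ (z : Fin 2 → σ → L) (G : L),
      KeyL (fun s : Sym σ (q default) => D ⟨default, s⟩)
        (fun j (s : Sym σ (q default)) => θ j ⟨default, s⟩) z G → ∀ j l, G * pl z j l ∈ V := by
  classical
  set y₀ : T → L := fun p : T => ah p.1.1 p.1.2 with hy₀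
  have htr := others_transcendental (k := k) y₀ hind
  have hof := others_finite (k := k) y₀ hfin
  have hst : ∀ (p : T) (s : Ix σ q), ∀ f ∈ others (k := k) y₀ p,
      D s f ∈ others (k := k) y₀ p :=
    fun p s => bnStable q ah D jj θ hD T hT hDk p s
  have h1 := fun p : T => bnDir (fun s : Sym σ (q default) => D ⟨default, s⟩)
    (fun j (s : Sym σ (q default)) => θ j ⟨default, s⟩) (others (k := k) y₀ p) (y₀ p)
    (htr p).1 (hof p).1 (fun s => hst p ⟨default, s⟩)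
    (fun s => bnVar q ah D jj θ hD T hT p ⟨default, s⟩ _)
  have h1' := fun p : T => bnDir (fun s : Sym σ (q default) => D ⟨default, s⟩)
    (fun j (s : Sym σ (q default)) => θ j ⟨default, s⟩) (others (k := k) y₀ p) (y₀ p)⁻¹
    (htr p).2 (hof p).2 (fun s => hst p ⟨default, s⟩)
    (fun s => bnVarInv q ah D jj θ hD T hT p ⟨default, s⟩ _
      (Subring.subset_closure (Or.inr rfl)))
  choose Δ₁ hΔ₁ H₁ using h1
  choose Δ₁' hΔ₁' H₁' using h1'
  obtain ⟨V₁, hV₁, hV₁'⟩ := fd y₀ hind hfin Δ₁ Δ₁' hΔ₁ hΔ₁'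
  refine ⟨V₁, hV₁, fun z G hkey j l => ?_⟩
  apply hV₁'
  intro p
  exact ⟨H₁ p z G hkey j l, H₁' p z G hkey j l⟩

end Pool.Agent.Helper74.LN
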