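import Pool.Agent.Helper74.LN.Lines
import Pool.Agent.Helper49.LV.GenLine
import Pool.Agent.Helper49.LG.FinalLine

/-!
# LN-LINESIN: rational points of the hypersurface

`lines_in`: refine the lines of `lines` (`Z = univ`, `A` = any finitely generated subalgebra, e.g.
`⊥`; `Pt` has no integrality condition) by `line_finite`: a line on which some `form (a i)` does
not vanish contains finitely many points. `lines_none`: by `gen_line` no line through a point with
`P(x) ≠ 0` is contained in the hypersurface (see `Helper49.LV.final_line`).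
-/

set_option autoImplicit false

namespace Pool.Agent.Helper74.LN

open scoped BigOperators
open Pool.Agent.Helper8.LG
open Pool.Agent.Helper8.LV (Fam Mov Over over_tower)
open Pool.Agent.Helper10.LB (Pt greedy)
open Pool.Agent.Helper49.LG (lineP lineP_eval line_finite)

/-- A basis of a plane adapted to the coordinates `i₀` and `β`. -/
theorem plane_basis {L : Type*} [Field L] {σ : Type*} [Fintype σ] (W : Submodule L (σ → L))
    (hW : Module.finrank L W = 2) (i₀ : σ) (x : σ → L) (hx : x ∈ W) (hx1 : x i₀ = 1) :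
    ∃ (β : σ) (u v : σ → L), i₀ ≠ β ∧ u ∈ W ∧ v ∈ W ∧ u i₀ = 1 ∧ u β = 0 ∧ v i₀ = 0 ∧
      v β = 1 ∧ ∀ y ∈ W, ∀ l, y l = y i₀ * u l + y β * v l := by
  classical
  have hex : ∃ y ∈ W, y ∉ Submodule.span L ({x} : Set (σ → L)) := by
    by_contra hcon
    push Not at hcon
    have h1 : W ≤ Submodule.span L ({x} : Set (σ → L)) := fun y hy => hcon y hy
    have h2 := Submodule.finrank_mono h1
    have h3 : Module.finrank L (Submodule.span L ({x} : Set (σ → L))) ≤ 1 := by
      refine (finrank_span_le_card ({x} : Set (σ → L))).trans ?_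
      simp
    omega
  obtain ⟨y, hy, hyx⟩ := hex
  have hne : y - y i₀ • x ≠ 0 := by
    intro h
    apply hyx
    rw [sub_eq_zero.1 h]
    exact Submodule.smul_mem _ _ (Submodule.subset_span (Set.mem_singleton x))
  obtain ⟨β, hβ⟩ : ∃ β, (y - y i₀ • x) β ≠ 0 := by
    by_contra hcon
    push Not at hcon
    exact hne (funext hcon)
  have h0 : (y - y i₀ • x) i₀ = 0 := by
    simp [hx1]
  have hiβ : i₀ ≠ β := by
    rintro rfl
    exact hβ h0
  set v : σ → L := ((y - y i₀ • x) β)⁻¹ • (y - y i₀ • x) with hv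
  set u : σ → L := x - x β • v with hu
  have hvW : v ∈ W := W.smul_mem _ (W.sub_mem hy (W.smul_mem _ hx))
  have huW : u ∈ W := W.sub_mem hx (W.smul_mem _ hvW)
  have hv0 : v i₀ = 0 := by
    rw [hv, Pi.smul_apply, h0, smul_zero]
  have hv1 : v β = 1 := by
    rw [hv, Pi.smul_apply, smul_eq_mul]
    exact inv_mul_cancel₀ hβ
  have hu1 : u i₀ = 1 := by
    rw [hu, Pi.sub_apply, Pi.smul_apply, hv0, smul_zero, sub_zero, hx1]
  have hu0 : u β = 0 := by
    rw [hu, Pi.sub_apply, Pi.smul_apply, hv1, smul_eq_mul, mul_one, sub_self]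
  have hlin : LinearIndependent L ![u, v] := by
    rw [LinearIndependent.pair_iff]
    intro s t hst
    have h1 := congrFun hst i₀
    have h2 := congrFun hst β
    simp only [Pi.add_apply, Pi.smul_apply, smul_eq_mul, Pi.zero_apply, hu1, hv0, hu0, hv1,
      mul_one, mul_zero, add_zero, zero_add] at h1 h2
    exact ⟨h1, h2⟩
  have hr : Set.range ![u, v] = {u, v} := by
    ext y
    simp [or_comm]
  have hfr := finrank_span_eq_card hlin
  rw [hr, Fintype.card_fin] at hfr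
  have hle : Submodule.span L ({u, v} : Set (σ → L)) ≤ W := by
    rw [Submodule.span_le]
    rintro y (rfl | rfl)
    · exact huW
    · exact hvW
  have heq := Submodule.eq_of_le_of_finrank_le hle (by rw [hfr, hW])
  refine ⟨β, u, v, hiβ, huW, hvW, hu1, hu0, hv0, hv1, ?_⟩
  intro z hz l
  rw [← heq, Submodule.mem_span_pair] at hz
  obtain ⟨s, t, rfl⟩ := hz
  simp only [Pi.add_apply, Pi.smul_apply, smul_eq_mul, hu1, hv0, hu0, hv1,
      mul_one, mul_zero, add_zero, zero_add]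

/-- A line with infinitely many normalised points of the hypersurfaces is contained in them. -/
theorem line_in {L : Type*} [Field L] [CharZero L] {σ ι : Type*} [Fintype σ] [DecidableEq σ]
    (d : ι → ℕ) (a : (i : ι) → Sym σ (d i) → L) (i₀ : σ) (W : Submodule L (σ → L))
    (hW : Module.finrank L W ≤ 2) (S : Set (σ → L)) (hS : ∀ x ∈ S, x i₀ = 1)
    (hS0 : ∀ x ∈ S, ∀ i, form (a i) x = 0) (hinf : (S ∩ W).Infinite) :
    Module.finrank L W = 2 ∧ ∀ y ∈ W, ∀ i, form (a i) y = 0 := by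
  classical
  have h2 : Module.finrank L W = 2 := by
    refine le_antisymm hW ?_
    by_contra hcon
    have hcon' : Module.finrank L W ≤ 1 := by omega
    apply hinf
    refine Set.Subsingleton.finite ?_
    rintro x ⟨hx, hxW⟩ y ⟨hy, hyW⟩
    obtain ⟨w, hw⟩ := finrank_le_one_iff.1 hcon'
    obtain ⟨s, hs⟩ := hw ⟨x, hxW⟩
    obtain ⟨t, ht⟩ := hw ⟨y, hyW⟩
    have hs' : s • (w : σ → L) = x := congrArg Subtype.val hs
    have ht' : t • (w : σ → L) = y := congrArg Subtype.val ht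
    have h3 : s * (w : σ → L) i₀ = 1 := by
      rw [← hS x hx, ← hs']
      rfl
    have h4 : t * (w : σ → L) i₀ = 1 := by
      rw [← hS y hy, ← ht']
      rfl
    have h5 : (w : σ → L) i₀ ≠ 0 := by
      intro h
      rw [h, mul_zero] at h3
      exact zero_ne_one h3
    have h6 : s = t := mul_right_cancel₀ h5 (h3.trans h4.symm)
    rw [← hs', ← ht', h6]
  refine ⟨h2, ?_⟩
  obtain ⟨x, hx, hxW⟩ := hinf.nonempty
  obtain ⟨β, u, v, hiβ, huW, hvW, hu1, hu0, hv0, hv1, hb⟩ := plane_basis W h2 i₀ x hxW (hS x hx)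
  intro y hy i
  by_contra hne
  have hl : lineP (a i) u v ≠ 0 := by
    refine Pool.Agent.Helper49.LV.lineP_ne (a i) u v (y i₀) (y β) ?_
    have h3 : (fun l => y i₀ * u l + y β * v l) = y := by
      funext l
      exact (hb y hy l).symm
    rw [h3]
    exact hne
  apply hinf
  refine (line_finite (a i) i₀ β i₀ u v hl).subset ?_
  rintro z ⟨hz, hzW⟩
  exact ⟨hS z hz, hS0 z hz i, hb z hzW⟩

/-- **Rational points of the hypersurface**: finitely many outside finitely many lines which are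
contained in it (refine the lines of `lines`, `Z = univ`, by `line_finite`). -/
theorem lines_in {k₀ L : Type*} [Field k₀] [Field L] [CharZero L] [Algebra k₀ L]
    (hfg : (⊤ : IntermediateField k₀ L).FG)
    {σ ι : Type*} [Fintype σ] [DecidableEq σ] [Fintype ι] [DecidableEq ι] [Unique ι]
    (d b q : ι → ℕ) (a aA : (i : ι) → Sym σ (d i) → L) (ap : (i : ι) → Sym σ (b i) → L)
    (ah : (i : ι) → Sym σ (q i) → L) (hF : Fam d b q a aA ap ah) (hAk : Over k₀ aA)
    (hpk : Over k₀ ap) (hq : ∀ i, 0 < q i) (c : ℕ)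
    (hc : (Fintype.card (Ix σ q) : Cardinal) ≤ Algebra.trdeg k₀
      (IntermediateField.adjoin k₀ (Set.range fun p : Ix σ q => ah p.1 p.2)) + c)
    (i₀ : σ) (w t : ℕ)
    (h0 : w + 1 = Fintype.card σ ∨ 2 * Fintype.card σ + w + c + 53 ≤ 10 * q default)
    (h1 : 3 * w + 3 + c ≤ 2 * q default)
    (h2 : t + 2 ≤ q default)
    (h3 : 6 * Fintype.card σ + 2 * c ≤ t * (t + 1) + 6) :
    ∃ (S₀ : Set (σ → L)) (Λ : Set (Submodule L (σ → L))), S₀.Finite ∧ Λ.Finite ∧
      (∀ W ∈ Λ, Module.finrank L W = 2 ∧ ∀ y ∈ W, ∀ i, form (a i) y = 0) ∧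
      ∀ x : σ → L, x i₀ = 1 → (∀ i, form (a i) x = 0) → (∀ i, form (ap i) x ≠ 0) →
        Algebra.trdeg k₀ (IntermediateField.adjoin k₀ (Set.range x)) ≤ w →
        x ∈ S₀ ∨ ∃ W ∈ Λ, x ∈ W := by
  classical
  obtain ⟨Λ, hΛ, hΛ2, hcov⟩ := lines hfg d b q a aA ap ah hF hAk hpk hq c hc Finset.univ i₀ w t
    (by rw [Finset.compl_univ, Finset.card_empty]; omega)
    (by rw [Finset.compl_univ, Finset.card_empty]; omega)
    (by rw [Finset.compl_univ, Finset.card_empty]; omega) h3 ⊥ Subalgebra.fg_bot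
  set S : Set (σ → L) := {x : σ → L | x i₀ = 1 ∧ (∀ i, form (a i) x = 0) ∧
    (∀ i, form (ap i) x ≠ 0) ∧
    Algebra.trdeg k₀ (IntermediateField.adjoin k₀ (Set.range x)) ≤ w} with hS
  refine ⟨⋃ W ∈ {W ∈ Λ | (S ∩ W).Finite}, S ∩ (W : Set (σ → L)),
    {W ∈ Λ | ¬(S ∩ (W : Set (σ → L))).Finite}, ?_, hΛ.subset fun W hW => hW.1, ?_, ?_⟩
  · exact Set.Finite.biUnion (hΛ.subset fun W hW => hW.1) fun W hW => hW.2
  · rintro W ⟨hW, hWi⟩
    exact line_in d a i₀ W (hΛ2 W hW) S (fun x hx => hx.1) (fun x hx => hx.2.1) hWi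
  · intro x hx1 hx0 hxP hxw
    obtain ⟨W, hW, hxW⟩ := hcov x hx1
      ⟨fun i _ => hx0 i, fun i hi => absurd (Finset.mem_univ i) hi,
        fun i hi => absurd (Finset.mem_univ i) hi⟩ hxP hxw
    by_cases hf : (S ∩ (W : Set (σ → L))).Finite
    · left
      refine Set.mem_biUnion (show W ∈ {W ∈ Λ | (S ∩ (W : Set (σ → L))).Finite} from ⟨hW, hf⟩) ?_
      exact ⟨⟨hx1, hx0, hxP, hxw⟩, hxW⟩
    · right
      exact ⟨W, ⟨hW, hf⟩, hxW⟩

/-- **Finiteness** if moreover `q ≥ 2 N - 2 + c` (`gen_line`: no line through a point with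
`P(x) ≠ 0` is contained in the hypersurface). -/
theorem lines_none {k₀ L : Type*} [Field k₀] [Field L] [CharZero L] [Algebra k₀ L]
    (hfg : (⊤ : IntermediateField k₀ L).FG)
    {σ ι : Type*} [Fintype σ] [DecidableEq σ] [Fintype ι] [DecidableEq ι] [Unique ι]
    (d b q : ι → ℕ) (a aA : (i : ι) → Sym σ (d i) → L) (ap : (i : ι) → Sym σ (b i) → L)
    (ah : (i : ι) → Sym σ (q i) → L) (hF : Fam d b q a aA ap ah) (hAk : Over k₀ aA)
    (hpk : Over k₀ ap) (hq : ∀ i, 0 < q i) (c : ℕ)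
    (hc : (Fintype.card (Ix σ q) : Cardinal) ≤ Algebra.trdeg k₀
      (IntermediateField.adjoin k₀ (Set.range fun p : Ix σ q => ah p.1 p.2)) + c)
    (i₀ : σ) (w t : ℕ)
    (h0 : w + 1 = Fintype.card σ ∨ 2 * Fintype.card σ + w + c + 53 ≤ 10 * q default)
    (h1 : 3 * w + 3 + c ≤ 2 * q default)
    (h2 : t + 2 ≤ q default)
    (h3 : 6 * Fintype.card σ + 2 * c ≤ t * (t + 1) + 6)
    (h4 : 2 * Fintype.card σ + c ≤ q default + 4) :
    {x : σ → L | x i₀ = 1 ∧
      Algebra.trdeg k₀ (IntermediateField.adjoin k₀ (Set.range x)) ≤ w ∧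
      (∀ i, form (ap i) x ≠ 0) ∧ ∀ i, form (a i) x = 0}.Finite := by
  classical
  obtain ⟨S₀, Λ, hS₀, hΛ, hΛ2, hcov⟩ := lines_in hfg d b q a aA ap ah hF hAk hpk hq c hc i₀ w t h0
    h1 h2 h3
  refine hS₀.subset ?_
  rintro x ⟨hx1, hxw, hxP, hx0⟩
  rcases hcov x hx1 hx0 hxP hxw with h | ⟨W, hW, hxW⟩
  · exact h
  exfalso
  obtain ⟨hW2, hWin⟩ := hΛ2 W hW
  obtain ⟨β, u, v, hiβ, huW, hvW, hu1, hu0, hv0, hv1, hb⟩ := plane_basis W hW2 i₀ x hxW hx1
  obtain ⟨T, k, hT, hind, hfin, D, θ, hD, hDk⟩ := reduce hfg q ah c hc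
  have hAk' : Over k aA := over_tower hAk
  have hpk' : Over k ap := over_tower hpk
  obtain ⟨i, n, hin⟩ := Pool.Agent.Helper49.LV.gen_line d b q a aA ap ah D (fun j => j.1) θ hD
    (hF.mov (k := k) hAk' hpk' D hDk) i₀ β hiβ u v hu1 hu0 hv0 hv1 x (hb x hxW) hxP (by
      rw [Fintype.sum_unique]
      omega)
  apply hin
  refine hWin _ ?_ i
  have h5 : (fun l => u l + (n : L) * v l) = u + (n : L) • v := by
    funext l
    simp
  rw [h5]
  exact W.add_mem huW (W.smul_mem _ hvW)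

end Pool.Agent.Helper74.LN
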