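import Pool.Agent.Helper74.LN.MovesMin
import Pool.Agent.Helper8.LG.UltraGerm

/-!
# LN-MOVESHOM: transport of `Moves` to other fields

By `moves_iff`. The columns of the image are the images of the columns: for `colJ` use `jc_eq`
and, for an exponent vector `m'`, either `m' = ex s` (then `Lam V (monomial m' 1) = V s`) or
`Lam V (monomial m' 1) = 0` (`lam_ne`); `RingHom.map_det`. For the ultrapower: the number `β`
(bounded) and the rows and columns of the nonvanishing minor (finitely many) are constant on a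
large set (`Ultrafilter.eventually_exists_mem_iff`, or finite unions); see the end of
`Helper49.LV.ultra_line` for `MinorsVanish`.
-/

set_option autoImplicit false

namespace Pool.Agent.Helper74.LN

open MvPolynomial
open Pool.Agent.Helper8.LG

section

variable {E : Type*} [Field E] {σ τ : Type*} [Fintype σ] [DecidableEq σ] [Fintype τ] {d : ℕ}

open Classical in
/-- the entry of `Lam V (monomial m 1)`, in terms of an entry `v` of `V` -/
private noncomputable def mh_pick {R : Type*} [Zero R] {σ : Type*} [DecidableEq σ] {d : ℕ}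
    (v : Sym σ d → R) (m : σ →₀ ℕ) : R :=
  if h : ∃ s : Sym σ d, ex s = m then v h.choose else 0

omit [Fintype τ] in
private theorem mh_lam {ρ : Type*} (V : Sym σ d → ρ → E) (m : σ →₀ ℕ) (r : ρ) :
    Lam V (monomial m (1 : E)) r = mh_pick (fun s => V s r) m := by
  unfold mh_pick
  split_ifs with h
  · conv_lhs => rw [← h.choose_spec, lam_ex]
  · rw [lam_ne]
    · rfl
    · intro hm
      exact h (exists_ex m hm)

private theorem mh_pick_map {R S : Type*} [Zero R] [Zero S] {σ : Type*} [DecidableEq σ] {d : ℕ}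
    (f : R → S) (hf : f 0 = 0) (v : Sym σ d → R) (m : σ →₀ ℕ) :
    f (mh_pick v m) = mh_pick (fun s => f (v s)) m := by
  unfold mh_pick
  split_ifs with h
  · rfl
  · exact hf

omit [Fintype τ] in
private theorem mh_jc {ρ : Type*} (V : Sym σ d → ρ → E) (z : Fin 2 → σ → E)
    (q : (σ →₀ ℕ) × σ × σ × σ) (r : ρ) :
    jc V z q r = pl z q.2.1 q.2.2.1 * mh_pick (fun s => V s r) (q.1 + Finsupp.single q.2.2.2 1) -
      pl z q.2.1 q.2.2.2 * mh_pick (fun s => V s r) (q.1 + Finsupp.single q.2.2.1 1) +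
      pl z q.2.2.1 q.2.2.2 * mh_pick (fun s => V s r) (q.1 + Finsupp.single q.2.1 1) := by
  rw [jc_eq]
  simp only [Pi.add_apply, Pi.sub_apply, Pi.smul_apply, smul_eq_mul, mh_lam]

omit [Fintype σ] [DecidableEq σ] [Fintype τ] in
private theorem mh_mu {F : Type*} [Field F] (f : F →+* E) (D : Sym σ d → Derivation ℤ E E)
    (δ : Sym σ d → Derivation ℤ F F) (hδ : ∀ s x, f (δ s x) = D s (f x)) (θ : τ → Sym σ d → F)
    (z : Fin 2 → σ → F) (s : Sym σ d) (r : (Fin 2 × σ) ⊕ τ) :
    f (mu δ θ z s r) = mu D (fun j s => f (θ j s)) (fun e l => f (z e l)) s r := by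
  rcases r with r | j
  · exact hδ s _
  · rfl

omit [Fintype σ] [DecidableEq σ] [Fintype τ] in
private theorem mh_w4 {F : Type*} [Field F] (f : F →+* E) (z : Fin 2 → σ → F) (c : Fin 2 × Fin 2)
    (r : (Fin 2 × σ) ⊕ τ) :
    f (w4 z c r) = w4 (fun e l => f (z e l)) c r := by
  rcases r with r | j
  · simp only [w4, Sum.elim_inl]
    split_ifs
    · rfl
    · exact map_zero f
  · exact map_zero f

omit [Fintype τ] in
private theorem mh_colJ {F : Type*} [Field F] (f : F →+* E) (D : Sym σ d → Derivation ℤ E E)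
    (δ : Sym σ d → Derivation ℤ F F) (hδ : ∀ s x, f (δ s x) = D s (f x)) (θ : τ → Sym σ d → F)
    (z : Fin 2 → σ → F) (c : (Fin 2 × Fin 2) ⊕ ((σ →₀ ℕ) × σ × σ × σ)) (r : (Fin 2 × σ) ⊕ τ) :
    f (colJ δ θ z c r) = colJ D (fun j s => f (θ j s)) (fun e l => f (z e l)) c r := by
  rcases c with c | q
  · exact mh_w4 f z c r
  · show f (jc (mu δ θ z) z q r) = jc (mu D (fun j s => f (θ j s)) (fun e l => f (z e l)))
      (fun e l => f (z e l)) q r
    rw [mh_jc, mh_jc]
    simp only [map_add, map_sub, map_mul, mh_pick_map f (map_zero f), mh_mu f D δ hδ, pl]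

omit [Fintype σ] [DecidableEq σ] [Fintype τ] in
private theorem mh_colA {F : Type*} [Field F] (f : F →+* E) (D : Sym σ d → Derivation ℤ E E)
    (δ : Sym σ d → Derivation ℤ F F) (hδ : ∀ s x, f (δ s x) = D s (f x)) (θ : τ → Sym σ d → F)
    (z : Fin 2 → σ → F) (c : (Fin 2 × Fin 2) ⊕ Sym σ d) (r : (Fin 2 × σ) ⊕ τ) :
    f (colA δ θ z c r) = colA D (fun j s => f (θ j s)) (fun e l => f (z e l)) c r := by
  rcases c with c | s
  · exact mh_w4 f z c r
  · exact mh_mu f D δ hδ θ z s r

private theorem mh_det {F E : Type*} [Field F] [Field E] (f : F →+* E) {n : ℕ}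
    (M : Fin n → Fin n → F) (N : Fin n → Fin n → E) (h : ∀ i j, f (M i j) = N i j) :
    Matrix.det (Matrix.of M) = 0 ↔ Matrix.det (Matrix.of N) = 0 := by
  have h1 : f.mapMatrix (Matrix.of M) = Matrix.of N := by
    ext i j
    exact h i j
  rw [← h1, ← RingHom.map_det, map_eq_zero]

/-- Transport along a homomorphism of fields. -/
theorem moves_hom {F : Type*} [Field F] (f : F →+* E) (T : ℕ) (D : Sym σ d → Derivation ℤ E E)
    (δ : Sym σ d → Derivation ℤ F F) (hδ : ∀ s x, f (δ s x) = D s (f x)) (θ : τ → Sym σ d → F)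
    (z : Fin 2 → σ → F) :
    Moves T δ θ z ↔ Moves T D (fun j s => f (θ j s)) fun e l => f (z e l) := by
  rw [moves_iff, moves_iff]
  refine exists_congr fun β => and_congr_right fun _ => and_congr ?_ ?_
  · exact forall_congr' fun r => forall_congr' fun c =>
      mh_det f _ _ fun i j => mh_colJ f D δ hδ θ z (c j) (r i)
  · exact exists_congr fun r => exists_congr fun c =>
      not_congr (mh_det f _ _ fun i j => mh_colA f D δ hδ θ z (c j) (r i))

section ultra

variable {L Ω : Type*} [Field L] [Field Ω] (Q : (ℕ → L) →+* Ω)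

omit [Fintype σ] [DecidableEq σ] [Fintype τ] in
private theorem mh_umu (hQ : Function.Surjective Q)
    (hker : ∀ f, Q f = 0 ↔ ∀ᶠ m in (Filter.hyperfilter ℕ : Filter ℕ), f m = 0)
    (D : Sym σ d → Derivation ℤ L L) (θ : τ → Sym σ d → L) (z : ℕ → Fin 2 → σ → L)
    (s : Sym σ d) (r : (Fin 2 × σ) ⊕ τ) :
    (Q fun m => mu D θ (z m) s r) = mu (fun s => ulDer Q hQ hker (D s))
      (fun j s => Q fun _ => θ j s) (fun e l => Q fun m => z m e l) s r := by
  rcases r with r | j
  · exact (ulDer_apply Q hQ hker (D s) fun m => z m r.1 r.2).symm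
  · rfl

omit [Fintype σ] [DecidableEq σ] [Fintype τ] in
private theorem mh_uw4 (z : ℕ → Fin 2 → σ → L) (c : Fin 2 × Fin 2) (r : (Fin 2 × σ) ⊕ τ) :
    (Q fun m => w4 (z m) c r) = w4 (fun e l => Q fun m => z m e l) c r := by
  rcases r with r | j
  · simp only [w4, Sum.elim_inl]
    split_ifs
    · rfl
    · exact map_zero Q
  · exact map_zero Q

omit [Fintype τ] in
private theorem mh_ucolJ (hQ : Function.Surjective Q)
    (hker : ∀ f, Q f = 0 ↔ ∀ᶠ m in (Filter.hyperfilter ℕ : Filter ℕ), f m = 0)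
    (D : Sym σ d → Derivation ℤ L L) (θ : τ → Sym σ d → L) (z : ℕ → Fin 2 → σ → L)
    (c : (Fin 2 × Fin 2) ⊕ ((σ →₀ ℕ) × σ × σ × σ)) (r : (Fin 2 × σ) ⊕ τ) :
    (Q fun m => colJ D θ (z m) c r) = colJ (fun s => ulDer Q hQ hker (D s))
      (fun j s => Q fun _ => θ j s) (fun e l => Q fun m => z m e l) c r := by
  rcases c with c | q
  · exact mh_uw4 Q z c r
  · show (Q fun m => jc (mu D θ (z m)) (z m) q r) = jc (mu (fun s => ulDer Q hQ hker (D s))
      (fun j s => Q fun _ => θ j s) (fun e l => Q fun m => z m e l))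
      (fun e l => Q fun m => z m e l) q r
    rw [mh_jc]
    have h1 : ∀ m' : σ →₀ ℕ, mh_pick (fun s : Sym σ d => mu (fun s => ulDer Q hQ hker (D s))
        (fun j s => Q fun _ => θ j s) (fun e l => Q fun m => z m e l) s r) m' =
        Q fun m => mh_pick (fun s : Sym σ d => mu D θ (z m) s r) m' := by
      intro m'
      have h2 : (fun m => mh_pick (fun s : Sym σ d => mu D θ (z m) s r) m') =
          mh_pick (fun s : Sym σ d => fun m => mu D θ (z m) s r) m' := by
        funext m
        exact (mh_pick_map (σ := σ) (d := d) (fun g : ℕ → L => g m) rfl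
          (fun s : Sym σ d => fun m => mu D θ (z m) s r) m').symm
      rw [h2, mh_pick_map Q (map_zero Q)]
      simp only [mh_umu Q hQ hker]
    have h3 : ∀ j l, pl (fun e l => Q fun m => z m e l) j l = Q fun m => pl (z m) j l := by
      intro j l
      have : (fun m => pl (z m) j l) = (fun m => z m 0 j) * (fun m => z m 1 l) -
          (fun m => z m 0 l) * (fun m => z m 1 j) := rfl
      rw [this, map_sub, map_mul, map_mul]
      rfl
    rw [h1, h1, h1, h3, h3, h3, ← map_mul, ← map_mul, ← map_mul, ← map_sub, ← map_add]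
    congr 1
    funext m
    exact mh_jc _ _ _ _

omit [Fintype σ] [DecidableEq σ] [Fintype τ] in
private theorem mh_ucolA (hQ : Function.Surjective Q)
    (hker : ∀ f, Q f = 0 ↔ ∀ᶠ m in (Filter.hyperfilter ℕ : Filter ℕ), f m = 0)
    (D : Sym σ d → Derivation ℤ L L) (θ : τ → Sym σ d → L) (z : ℕ → Fin 2 → σ → L)
    (c : (Fin 2 × Fin 2) ⊕ Sym σ d) (r : (Fin 2 × σ) ⊕ τ) :
    (Q fun m => colA D θ (z m) c r) = colA (fun s => ulDer Q hQ hker (D s))
      (fun j s => Q fun _ => θ j s) (fun e l => Q fun m => z m e l) c r := by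
  rcases c with c | s
  · exact mh_uw4 Q z c r
  · exact mh_umu Q hQ hker D θ z s r

private theorem mh_udet
    (hker : ∀ f, Q f = 0 ↔ ∀ᶠ m in (Filter.hyperfilter ℕ : Filter ℕ), f m = 0) {n : ℕ}
    (M : ℕ → Fin n → Fin n → L) (N : Fin n → Fin n → Ω) (h : ∀ i j, (Q fun m => M m i j) = N i j) :
    Matrix.det (Matrix.of N) = 0 ↔
      ∀ᶠ m in (Filter.hyperfilter ℕ : Filter ℕ), Matrix.det (Matrix.of (M m)) = 0 := by
  have h1 : Q.mapMatrix (Matrix.of fun i j => fun m => M m i j) = Matrix.of N := by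
    ext i j
    exact h i j
  rw [← h1, ← RingHom.map_det, hker]
  refine Filter.eventually_congr (Filter.Eventually.of_forall fun m => ?_)
  have h2 : (Matrix.det (Matrix.of fun i j => fun m => M m i j)) m =
      Matrix.det (Matrix.of (M m)) := by
    have h3 := RingHom.map_det (Pi.evalRingHom (fun _ : ℕ => L) m)
      (Matrix.of fun i j => fun m => M m i j)
    exact h3
  rw [h2]

/-- Transport to the ultrapower. -/
theorem moves_ultra (hQ : Function.Surjective Q)
    (hker : ∀ f, Q f = 0 ↔ ∀ᶠ m in (Filter.hyperfilter ℕ : Filter ℕ), f m = 0) (T : ℕ)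
    (D : Sym σ d → Derivation ℤ L L) (θ : τ → Sym σ d → L) (z : ℕ → Fin 2 → σ → L)
    (h : ∀ m, Moves T D θ (z m)) :
    Moves T (fun s => ulDer Q hQ hker (D s)) (fun j s => Q fun _ => θ j s)
      fun e l => Q fun m => z m e l := by
  rw [moves_iff]
  have h0 : ∀ᶠ m in (Filter.hyperfilter ℕ : Filter ℕ),
      ∃ β ∈ Set.Iic (Fintype.card ((Fin 2 × σ) ⊕ τ)), MovesC T β D θ (z m) :=
    Filter.Eventually.of_forall fun m => (moves_iff T D θ (z m)).1 (h m)
  rw [Ultrafilter.eventually_exists_mem_iff (Set.finite_Iic _)] at h0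
  obtain ⟨β, hβ, h1⟩ := h0
  refine ⟨β, hβ, fun r c => ?_, ?_⟩
  · rw [mh_udet Q hker (fun m s t => colJ D θ (z m) (c t) (r s)) _
      fun i j => mh_ucolJ Q hQ hker D θ z (c j) (r i)]
    filter_upwards [h1] with m hm
    exact hm.1 r c
  · have h2 : ∀ᶠ m in (Filter.hyperfilter ℕ : Filter ℕ),
        ∃ rc : (Fin (β + T) → (Fin 2 × σ) ⊕ τ) × (Fin (β + T) → (Fin 2 × Fin 2) ⊕ Sym σ d),
        Matrix.det (Matrix.of fun s t => colA D θ (z m) (rc.2 t) (rc.1 s)) ≠ 0 := by
      filter_upwards [h1] with m hm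
      obtain ⟨r, c, hrc⟩ := hm.2
      exact ⟨(r, c), hrc⟩
    rw [Ultrafilter.eventually_exists_iff] at h2
    obtain ⟨⟨r, c⟩, h3⟩ := h2
    refine ⟨r, c, ?_⟩
    rw [Ne, mh_udet Q hker (fun m s t => colA D θ (z m) (c t) (r s)) _
      fun i j => mh_ucolA Q hQ hker D θ z (c j) (r i)]
    intro h4
    obtain ⟨m, hm1, hm2⟩ := (h3.and h4).exists
    exact hm1 hm2

end ultra

end

end Pool.Agent.Helper74.LN
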