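import Pool.Agent.Helper74.LN.K2
import Pool.Agent.Helper49.LV.RigidLine

/-!
# LN-RIGIDL: rigidity of a line which moves

Copy of `Helper49.LV.rigid_line` with `k2` instead of `key_line`: no rows, no point.
-/

set_option autoImplicit false

namespace Pool.Agent.Helper74.LN

open scoped BigOperators
open Pool.Agent.Helper8.LG

/-- One side: `G P_jl` is integral over `E₀[t]`. -/
theorem rl_ln {E : Type*} [Field E] [CharZero E] {σ τ : Type*} [Fintype σ] [Fintype τ] {d : ℕ}
    (D : Sym σ d → Derivation ℤ E E) (θ : τ → Sym σ d → E) (z : Fin 2 → σ → E)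
    (E₀ : Subfield E) (t : E) (ht : Transcendental E₀ t)
    (hfin : FiniteDimensional (Subfield.closure ((E₀ : Set E) ∪ {t})) E)
    (hstab : ∀ p, ∀ f ∈ intCl E₀ t, D p f ∈ intCl E₀ t)
    (hθ : ∀ j s, θ j s ∈ E₀) (G : E) (hG : KeyL D θ z G) (j l : σ) :
    G * pl z j l ∈ intCl E₀ t := by
  obtain ⟨h1, h2⟩ := intCl_dedekind E₀ t ht hfin
  haveI := h1
  haveI := h2
  have hE₀R : ∀ f ∈ E₀, f ∈ intCl E₀ t := fun f hf =>
    rg_mem_intCl E₀ t (Subring.subset_closure (Or.inl hf))
  apply mem_of (intCl E₀ t)
  intro O hO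
  have hbdd : Bdd D 1 O := bdd_of (intCl E₀ t) D 1 (one_mem _)
    (fun p f hf => by rw [one_mul]; exact hstab p f hf) O hO
  have h5 := hG O 1 hbdd (fun j s => by rw [one_mul]; exact hO (hE₀R _ (hθ j s))) j l
  rwa [one_pow, one_mul] at h5

theorem rigid_ln {k L E : Type*} [Field k] [Field L] [Field E] [CharZero E] [Algebra k L]
    [Algebra L E] [Algebra k E] [IsScalarTower k L E] {n : ℕ} (c : Fin n → E)
    (hgen : IntermediateField.adjoin L (Set.range c) = ⊤) (B : Set (Fin n))
    (hB : AlgebraicIndependent L (fun b : B => c b))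
    (halg : ∀ r, IsAlgebraic (IntermediateField.adjoin k (c '' B)) (c r))
    {σ τ : Type*} [Fintype σ] [DecidableEq σ] [Fintype τ] {d : ℕ}
    (D : Sym σ d → Derivation ℤ E E) (θ : τ → Sym σ d → L)
    (hDL : ∀ p b, ∃ b', D p (algebraMap L E b) = algebraMap L E b')
    (hDk : ∀ p (b : k), D p (algebraMap k E b) = 0)
    (hDc : ∀ p r, D p (c r) = 0) (T : ℕ)
    (hT : 6 * Fintype.card σ + 2 * Fintype.card τ ≤ T * (T + 1) + 6)
    (z : Fin 2 → σ → E) (hz : ∃ α β, pl z α β ≠ 0)
    (hm : Moves T D (fun j s => algebraMap L E (θ j s)) z) :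
    ∃ G : E, G ≠ 0 ∧ ∀ j l, IsAlgebraic L (G * pl z j l) := by
  classical
  obtain ⟨G, hG0, hG⟩ := k2 D (fun j s => algebraMap L E (θ j s)) z hz T hm hT
  -- the field `F = E₀(t)`
  have hrange : (Set.range fun b : B => c b) = c '' B := by
    ext z
    constructor
    · rintro ⟨b, rfl⟩
      exact ⟨b, b.2, rfl⟩
    · rintro ⟨b, hb, rfl⟩
      exact ⟨⟨b, hb⟩, rfl⟩
  have halgF : ∀ (F : Subfield E), (∀ b : k, algebraMap k E b ∈ F) → (∀ b ∈ B, c b ∈ F) →
      ∀ r, IsAlgebraic F (c r) := by
    intro F hkF hBF r
    refine rg_alg (R₁ := IntermediateField.adjoin k (c '' B)) (fun s => ?_) (halg r)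
    have h1 : (IntermediateField.adjoin k (c '' B)).toSubfield ≤ F := by
      rw [IntermediateField.adjoin_toSubfield, Subfield.closure_le]
      rintro z (⟨b, rfl⟩ | ⟨b, hb, rfl⟩)
      · exact hkF b
      · exact hBF b hb
    exact ⟨⟨s, h1 s.2⟩, rfl⟩
  have hfinF : ∀ (F : Subfield E), (∀ b : L, algebraMap L E b ∈ F) → (∀ b ∈ B, c b ∈ F) →
      FiniteDimensional F E := by
    intro F hLF hBF
    have hkF : ∀ b : k, algebraMap k E b ∈ F := fun b => by
      rw [IsScalarTower.algebraMap_apply k L E]
      exact hLF _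
    have h1 : FiniteDimensional F (IntermediateField.adjoin F (Set.range c)) :=
      IntermediateField.finiteDimensional_adjoin (by
        rintro z ⟨r, rfl⟩
        exact (halgF F hkF hBF r).isIntegral)
    have h2 : IntermediateField.adjoin F (Set.range c) = ⊤ := by
      rw [eq_top_iff]
      intro z _
      have hz : z ∈ IntermediateField.adjoin L (Set.range c) := by rw [hgen]; trivial
      have h3 : (IntermediateField.adjoin L (Set.range c)).toSubfield ≤
          (IntermediateField.adjoin F (Set.range c)).toSubfield := by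
        rw [IntermediateField.adjoin_toSubfield, Subfield.closure_le]
        rintro z (⟨b, rfl⟩ | hz)
        · exact (IntermediateField.adjoin F (Set.range c)).algebraMap_mem ⟨_, hLF b⟩
        · exact IntermediateField.subset_adjoin F _ hz
      exact h3 hz
    rw [h2] at h1
    exact Module.Finite.equiv (IntermediateField.topEquiv (F := F) (E := E)).toLinearEquiv
  refine ⟨G, hG0, fun j l => ?_⟩
  refine exchange (fun b : B => c b) hB (G * pl z j l) ?_ fun b => ?_
  · -- algebraic over `L(c_B)`
    have h1 := hfinF (IntermediateField.adjoin L (Set.range fun b : B => c b)).toSubfield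
      (fun b => (IntermediateField.adjoin L (Set.range fun b : B => c b)).algebraMap_mem b)
      (fun b hb => IntermediateField.subset_adjoin L _ ⟨⟨b, hb⟩, rfl⟩)
    have h2 : IsAlgebraic (IntermediateField.adjoin L (Set.range fun b : B => c b)).toSubfield
        (G * pl z j l) := Algebra.IsAlgebraic.isAlgebraic _
    exact rg_alg (fun s => ⟨⟨s, s.2⟩, rfl⟩) h2
  · -- algebraic over `L(c_(B - b))`
    set S₀ : Set E := (fun b : B => c b) '' {b}ᶜ with hS₀
    set E₀ : Subfield E := (IntermediateField.adjoin L S₀).toSubfield with hE₀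
    have hE₀cl : E₀ = Subfield.closure (Set.range (algebraMap L E) ∪ S₀) :=
      IntermediateField.adjoin_toSubfield L S₀
    have hLE₀ : ∀ z : L, algebraMap L E z ∈ E₀ := fun z =>
      (IntermediateField.adjoin L S₀).algebraMap_mem z
    have hSE₀ : ∀ z ∈ S₀, z ∈ E₀ := fun z hz => IntermediateField.subset_adjoin L _ hz
    have hcE₀ : ∀ b' ∈ B, b' ≠ b → c b' ∈ E₀ := fun b' hb' hne => by
      refine hSE₀ _ ⟨⟨b', hb'⟩, ?_, rfl⟩
      intro h
      apply hne
      rw [Set.mem_singleton_iff] at h
      rw [← h]
    have htr : Transcendental E₀ (c b) := by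
      have h1 : Transcendental (Algebra.adjoin L S₀) (c b) :=
        hB.transcendental_adjoin (s := {b}ᶜ) (i := b) (fun h => h rfl)
      have h2 := (IntermediateField.transcendental_adjoin_iff (F := L) (s := S₀)).2 h1
      intro h3
      exact h2 (rg_alg (fun s => ⟨⟨s, s.2⟩, rfl⟩) h3)
    -- the derivations
    have hDE₀ : ∀ p, ∀ f ∈ E₀, D p f ∈ E₀ := by
      intro p
      rw [hE₀cl]
      apply rg_stable
      rintro f (⟨z, rfl⟩ | hf)
      · obtain ⟨z', hz'⟩ := hDL p z
        rw [hz']
        exact Subfield.subset_closure (Or.inl ⟨z', rfl⟩)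
      · obtain ⟨b', -, rfl⟩ := hf
        show D p (c b') ∈ _
        rw [hDc]
        exact zero_mem _
    set k₀ : Subfield E := (IntermediateField.adjoin k S₀).toSubfield with hk₀
    have hk₀cl : k₀ = Subfield.closure (Set.range (algebraMap k E) ∪ S₀) :=
      IntermediateField.adjoin_toSubfield k S₀
    have hk₀E₀ : k₀ ≤ E₀ := by
      rw [hk₀cl, Subfield.closure_le]
      rintro z (⟨z, rfl⟩ | hz)
      · rw [IsScalarTower.algebraMap_apply k L E]
        exact hLE₀ _
      · exact hSE₀ z hz
    have hDk₀ : ∀ p, ∀ f ∈ k₀, D p f = 0 := by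
      intro p
      rw [hk₀cl]
      apply rg_kill
      rintro f (⟨z, rfl⟩ | hf)
      · exact hDk p z
      · obtain ⟨b', -, rfl⟩ := hf
        exact hDc p b'
    -- both sides
    have hside : ∀ t : E, (t = c b ∨ t = (c b)⁻¹) → Transcendental E₀ t ∧
        FiniteDimensional (Subfield.closure ((E₀ : Set E) ∪ {t})) E ∧
        G * pl z j l ∈ intCl E₀ t := by
      intro t ht
      have htc : c b ∈ Subfield.closure ({t} : Set E) := by
        rcases ht with h | h
        · rw [← h]
          exact Subfield.subset_closure rfl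
        · have h1 : c b = t⁻¹ := by rw [h, inv_inv]
          rw [h1]
          exact inv_mem (Subfield.subset_closure rfl)
      have htt : Transcendental E₀ t := by
        rcases ht with h | h
        · rw [h]
          exact htr
        · rw [h]
          intro h1
          exact htr (by simpa using h1.inv)
      have hF1 : ∀ z : L, algebraMap L E z ∈ Subfield.closure ((E₀ : Set E) ∪ {t}) := fun z =>
        Subfield.subset_closure (Or.inl (hLE₀ z))
      have hF2 : ∀ b' ∈ B, c b' ∈ Subfield.closure ((E₀ : Set E) ∪ {t}) := by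
        intro b' hb'
        by_cases hne : b' = b
        · rw [hne]
          exact Subfield.closure_mono (Set.subset_union_right) htc
        · exact Subfield.subset_closure (Or.inl (hcE₀ b' hb' hne))
      have hfin := hfinF _ hF1 hF2
      refine ⟨htt, hfin, ?_⟩
      have hDt : ∀ p, D p t = 0 := by
        intro p
        rcases ht with h | h
        · rw [h]
          exact hDc p b
        · rw [h, (D p).leibniz_inv, hDc, smul_zero]
      have hstab := intCl_stable E₀ t D hDE₀ hDt k₀ hk₀E₀ hDk₀ (Set.range c)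
        (Set.finite_range c) (by rintro p z ⟨r, rfl⟩; exact hDc p r) (by
          rintro z ⟨r, rfl⟩
          refine halgF _ (fun z => ?_) (fun b' hb' => ?_) r
          · exact Subfield.subset_closure
              (Or.inl ((IntermediateField.adjoin k S₀).algebraMap_mem z))
          · by_cases hne : b' = b
            · rw [hne]
              exact Subfield.closure_mono (Set.subset_union_right) htc
            · refine Subfield.subset_closure (Or.inl ?_)
              refine IntermediateField.subset_adjoin k S₀ ⟨⟨b', hb'⟩, ?_, rfl⟩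
              intro h
              apply hne
              rw [Set.mem_singleton_iff] at h
              rw [← h]) (by
          rw [eq_top_iff]
          intro z _
          have hz : z ∈ (IntermediateField.adjoin L (Set.range c)).toSubfield := by
            rw [hgen]; trivial
          rw [IntermediateField.adjoin_toSubfield] at hz
          refine Subfield.closure_mono ?_ hz
          rintro z (⟨z, rfl⟩ | hz)
          · exact Or.inl (Or.inl (hLE₀ z))
          · exact Or.inr hz)
      exact rl_ln D (fun j s => algebraMap L E (θ j s)) z E₀ t htt hfin hstab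
        (fun j s => hLE₀ _) G hG j l
    obtain ⟨ht1, hfin1, h1⟩ := hside (c b) (Or.inl rfl)
    obtain ⟨-, -, h2⟩ := hside (c b)⁻¹ (Or.inr rfl)
    have hP : IsAlgebraic E₀ (G * pl z j l) :=
      algebraic_of_mem E₀ (c b) ht1 hfin1 _ h1 h2
    exact rg_alg (fun s => ⟨⟨s, s.2⟩, rfl⟩) hP

end Pool.Agent.Helper74.LN
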