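import Pool.Agent.Helper74.LN.Lam

/-!
# LN-TAU: change of the basis of a line

`z i = ∑_k g_ik w_k`; `tau g` acts by `g` on the places `Fin 2`.
-/

set_option autoImplicit false

namespace Pool.Agent.Helper74.LN

open MvPolynomial
open Pool.Agent.Helper8.LG (mon form Ix Bdd)

section

variable {E : Type*} [Field E] {σ τ : Type*} [Fintype σ] [DecidableEq σ] [Fintype τ]
  [DecidableEq τ]

/-- the action of `g` -/
def tau (g : Matrix (Fin 2) (Fin 2) E) : ((Fin 2 × σ) ⊕ τ → E) →ₗ[E] ((Fin 2 × σ) ⊕ τ → E) where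
  toFun v := Sum.elim (fun r => ∑ k, g r.1 k * v (Sum.inl (k, r.2))) fun j => v (Sum.inr j)
  map_add' u v := by
    funext r
    rcases r with r | j
    · simp [mul_add, Finset.sum_add_distrib]
    · simp
  map_smul' c v := by
    funext r
    rcases r with r | j
    · simp only [Sum.elim_inl, Pi.smul_apply, smul_eq_mul, RingHom.id_apply, Finset.mul_sum]
      exact Finset.sum_congr rfl fun k _ => by ring
    · simp

theorem tau_inl (g : Matrix (Fin 2) (Fin 2) E) (v : (Fin 2 × σ) ⊕ τ → E) (r : Fin 2 × σ) :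
    tau g v (Sum.inl r) = ∑ k, g r.1 k * v (Sum.inl (k, r.2)) := rfl

theorem tau_inr (g : Matrix (Fin 2) (Fin 2) E) (v : (Fin 2 × σ) ⊕ τ → E) (j : τ) :
    tau g v (Sum.inr j) = v (Sum.inr j) := rfl

/-- the determinant (the matrix is block diagonal: `g ⊗ 1`, `1`) -/
theorem det_tau (g : Matrix (Fin 2) (Fin 2) E) :
    LinearMap.det (tau (σ := σ) (τ := τ) g) = g.det ^ Fintype.card σ := by
  have h : tau (σ := σ) (τ := τ) g = Matrix.toLin' (Matrix.fromBlocks
      (Matrix.kroneckerMap (fun a b => a * b) g (1 : Matrix σ σ E)) 0 0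
      (1 : Matrix τ τ E)) := by
    refine LinearMap.ext fun v => funext fun r => ?_
    rw [Matrix.toLin'_apply]
    rcases r with r | j
    · rw [tau_inl, Matrix.mulVec, dotProduct, Fintype.sum_sum_type, Fintype.sum_prod_type]
      simp [Matrix.fromBlocks_apply₁₁, Matrix.fromBlocks_apply₁₂, Matrix.kroneckerMap_apply,
        Matrix.one_apply]
    · rw [tau_inr, Matrix.mulVec, dotProduct, Fintype.sum_sum_type]
      simp [Matrix.fromBlocks_apply₂₁, Matrix.fromBlocks_apply₂₂, Matrix.one_apply]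
  rw [h, LinearMap.det_toLin', Matrix.det_fromBlocks_zero₁₂, Matrix.det_one, mul_one]
  have h2 := Matrix.det_kronecker g (1 : Matrix σ σ E)
  rw [Matrix.det_one, one_pow, mul_one] at h2
  exact h2

theorem tau_mul (g h : Matrix (Fin 2) (Fin 2) E) (v : (Fin 2 × σ) ⊕ τ → E) :
    tau (g * h) v = tau g (tau h v) := by
  funext r
  rcases r with r | j
  · rw [tau_inl, tau_inl]
    simp only [tau_inl, Matrix.mul_apply, Fin.sum_univ_two]
    ring
  · rw [tau_inr, tau_inr, tau_inr]

theorem tau_one (v : (Fin 2 × σ) ⊕ τ → E) : tau 1 v = v := by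
  funext r
  rcases r with ⟨i, l⟩ | j
  · rw [tau_inl]
    simp [Matrix.one_apply]
  · rw [tau_inr]

theorem tau_inj (g : Matrix (Fin 2) (Fin 2) E) (hg : g.det ≠ 0) :
    Function.Injective (tau (σ := σ) (τ := τ) g) := by
  intro u v h
  have hu : IsUnit g.det := isUnit_iff_ne_zero.2 hg
  have h1 : tau g⁻¹ (tau g u) = tau g⁻¹ (tau g v) := by rw [h]
  rw [← tau_mul, ← tau_mul, Matrix.nonsing_inv_mul _ hu, tau_one, tau_one] at h1
  exact h1

variable {d : ℕ} (D : Sym σ d → Derivation ℤ E E) (θ : τ → Sym σ d → E) (z w : Fin 2 → σ → E)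
  (g : Matrix (Fin 2) (Fin 2) E)

/-- `w` in terms of `z` -/
theorem inv_eq {z w : Fin 2 → σ → E} {g : Matrix (Fin 2) (Fin 2) E}
    (hz : ∀ i l, z i l = ∑ k, g i k * w k l) (hg : g.det ≠ 0) (k : Fin 2) (l : σ) :
    w k l = ∑ f, g⁻¹ k f * z f l := by
  have hu : IsUnit g.det := isUnit_iff_ne_zero.2 hg
  have h1 : ∀ k', ∑ f, g⁻¹ k f * g f k' = (1 : Matrix (Fin 2) (Fin 2) E) k k' := by
    intro k'
    rw [← Matrix.nonsing_inv_mul _ hu, Matrix.mul_apply]
  have h2 : ∑ f, g⁻¹ k f * z f l = ∑ k', (∑ f, g⁻¹ k f * g f k') * w k' l := by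
    simp only [hz, Fin.sum_univ_two]
    ring
  rw [h2]
  simp only [h1]
  simp [Matrix.one_apply]

/-- `w_k` in the place `i` -/
theorem place_mem {z w : Fin 2 → σ → E} {g : Matrix (Fin 2) (Fin 2) E}
    (hz : ∀ i l, z i l = ∑ k, g i k * w k l) (hg : g.det ≠ 0) (i k : Fin 2) :
    w4 (τ := τ) w (i, k) ∈ Submodule.span E (Set.range (w4 (τ := τ) z)) := by
  have h : w4 (τ := τ) w (i, k) = ∑ f, g⁻¹ k f • w4 (τ := τ) z (i, f) := by
    funext r
    rw [Finset.sum_apply]
    rcases r with ⟨i', l⟩ | j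
    · by_cases hi : i' = i
      · simp only [w4, Sum.elim_inl, hi, if_true, Pi.smul_apply, smul_eq_mul]
        exact inv_eq hz hg k l
      · simp [w4, hi]
    · simp [w4]
  rw [h]
  exact Submodule.sum_mem _ fun f _ => Submodule.smul_mem _ _ (Submodule.subset_span ⟨(i, f), rfl⟩)

theorem mu_tau (hz : ∀ i l, z i l = ∑ k, g i k * w k l) (hg : g.det ≠ 0) (s : Sym σ d) :
    mu D θ z s - tau g (mu D θ w s) ∈ Submodule.span E (Set.range (w4 (τ := τ) z)) := by
  have h : mu D θ z s - tau g (mu D θ w s) =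
      ∑ i, ∑ k, D s (g i k) • w4 (τ := τ) w (i, k) := by
    funext r
    rw [Finset.sum_apply]
    rcases r with ⟨i, l⟩ | j
    · rw [Pi.sub_apply, tau_inl]
      have h1 : D s (z i l) = ∑ k, (g i k * D s (w k l) + w k l * D s (g i k)) := by
        rw [hz i l, map_sum]
        refine Finset.sum_congr rfl fun k _ => ?_
        rw [Derivation.leibniz]
        simp only [smul_eq_mul]
      simp only [mu, Sum.elim_inl, h1, Finset.sum_apply, Pi.smul_apply, w4, smul_eq_mul]
      fin_cases i <;> simp [Fin.sum_univ_two] <;> ring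
    · rw [Pi.sub_apply, tau_inr]
      simp [mu, w4]
  rw [h]
  exact Submodule.sum_mem _ fun i _ => Submodule.sum_mem _ fun k _ =>
    Submodule.smul_mem _ _ (place_mem hz hg i k)

theorem pl_tau (hz : ∀ i l, z i l = ∑ k, g i k * w k l) (j l : σ) :
    pl z j l = g.det * pl w j l := by
  simp only [pl, hz, Matrix.det_fin_two, Fin.sum_univ_two]
  ring

theorem thr_tau (hz : ∀ i l, z i l = ∑ k, g i k * w k l) (j l m : σ) :
    thr z j l m = C g.det * thr w j l m := by
  unfold thr
  rw [pl_tau z w g hz j l, pl_tau z w g hz j m, pl_tau z w g hz l m]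
  simp only [map_mul]
  ring

theorem w4_tau (hz : ∀ i l, z i l = ∑ k, g i k * w k l) (hg : g.det ≠ 0) :
    Submodule.span E (Set.range (w4 (τ := τ) z)) =
      (Submodule.span E (Set.range (w4 (τ := τ) w))).map (tau g) := by
  have hu : IsUnit g.det := isUnit_iff_ne_zero.2 hg
  have himg : ∀ e f, tau g (w4 (τ := τ) w (e, f)) = ∑ i, g i e • w4 (τ := τ) w (i, f) := by
    intro e f
    funext r
    rw [Finset.sum_apply]
    rcases r with ⟨i, l⟩ | j
    · rw [tau_inl]
      simp only [Pi.smul_apply, w4, Sum.elim_inl, smul_eq_mul]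
      simp
    · rw [tau_inr]
      simp [w4]
  apply le_antisymm
  · rw [Submodule.span_le]
    rintro _ ⟨⟨i, f⟩, rfl⟩
    have h1 : w4 (τ := τ) z (i, f) =
        tau g (∑ k, g f k • ∑ e, g⁻¹ e i • w4 (τ := τ) w (e, k)) := by
      rw [map_sum]
      have h2 : ∀ k, tau g (g f k • ∑ e, g⁻¹ e i • w4 (τ := τ) w (e, k)) =
          g f k • w4 (τ := τ) w (i, k) := by
        intro k
        rw [map_smul, map_sum]
        congr 1
        have h3 : ∀ e, tau g (g⁻¹ e i • w4 (τ := τ) w (e, k)) =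
            ∑ i', (g i' e * g⁻¹ e i) • w4 (τ := τ) w (i', k) := by
          intro e
          rw [map_smul, himg, Finset.smul_sum]
          refine Finset.sum_congr rfl fun i' _ => ?_
          rw [smul_smul, mul_comm]
        simp only [h3]
        rw [Finset.sum_comm]
        have h4 : ∀ i', ∑ e, (g i' e * g⁻¹ e i) • w4 (τ := τ) w (i', k) =
            (1 : Matrix (Fin 2) (Fin 2) E) i' i • w4 (τ := τ) w (i', k) := by
          intro i'
          rw [← Finset.sum_smul, ← Matrix.mul_nonsing_inv _ hu, Matrix.mul_apply]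
        simp only [h4]
        simp [Matrix.one_apply]
      simp only [h2]
      funext r
      rw [Finset.sum_apply]
      rcases r with ⟨i', l⟩ | j
      · simp only [w4, Sum.elim_inl, Pi.smul_apply, smul_eq_mul]
        by_cases hi : i' = i
        · simp only [hi, if_true]; exact hz f l
        · simp [hi]
      · simp [w4]
    rw [SetLike.mem_coe, h1]
    refine Submodule.mem_map_of_mem ?_
    exact Submodule.sum_mem _ fun k _ => Submodule.smul_mem _ _ (Submodule.sum_mem _ fun e _ =>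
      Submodule.smul_mem _ _ (Submodule.subset_span ⟨(e, k), rfl⟩))
  · rw [Submodule.map_le_iff_le_comap, Submodule.span_le]
    rintro _ ⟨⟨e, f⟩, rfl⟩
    rw [SetLike.mem_coe, Submodule.mem_comap, himg]
    exact Submodule.sum_mem _ fun i _ => Submodule.smul_mem _ _ (place_mem hz hg i f)

theorem cst_tau (hz : ∀ i l, z i l = ∑ k, g i k * w k l) (r : (σ × σ) ⊕ τ) :
    cst z r = tau g (cst w r) := by
  rcases r with ⟨a, b⟩ | j
  · funext r
    rcases r with ⟨i, l⟩ | j'
    · rw [tau_inl]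
      by_cases hl : l = a
      · simp only [cst, Sum.elim_inl, hl, if_true]; exact hz i b
      · simp [cst, hl]
    · rw [tau_inr]
      simp [cst]
  · funext r
    rcases r with ⟨i, l⟩ | j'
    · rw [tau_inl]
      simp [cst]
    · rw [tau_inr]
      simp [cst]

/-- columns of forms for the two bases -/
theorem lam_tau (hz : ∀ i l, z i l = ∑ k, g i k * w k l) (hg : g.det ≠ 0)
    (f : MvPolynomial σ E) :
    Lam (mu D θ z) f - tau g (Lam (mu D θ w) f) ∈
      Submodule.span E (Set.range (w4 (τ := τ) z)) := by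
  rw [lam_map, lam_apply, lam_apply, ← Finset.sum_sub_distrib]
  refine Submodule.sum_mem _ fun s _ => ?_
  rw [← smul_sub]
  exact Submodule.smul_mem _ _ (mu_tau D θ z w g hz hg s)

theorem jc_tau (hz : ∀ i l, z i l = ∑ k, g i k * w k l) (hg : g.det ≠ 0)
    (q : (σ →₀ ℕ) × σ × σ × σ) :
    jc (mu D θ z) z q - g.det • tau g (jc (mu D θ w) w q) ∈
      Submodule.span E (Set.range (w4 (τ := τ) z)) := by
  have h1 : jc (mu D θ z) z q =
      g.det • Lam (mu D θ z) (monomial q.1 1 * thr w q.2.1 q.2.2.1 q.2.2.2) := by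
    unfold jc
    rw [thr_tau z w g hz, ← map_smul]
    congr 1
    rw [MvPolynomial.smul_eq_C_mul]
    ring
  rw [h1, ← smul_sub]
  exact Submodule.smul_mem _ _ (lam_tau D θ z w g hz hg _)

/-- the spaces of the line -/
theorem jsp_tau (hz : ∀ i l, z i l = ∑ k, g i k * w k l) (hg : g.det ≠ 0) :
    Jsp D θ z = (Jsp D θ w).map (tau g) := by
  unfold Jsp
  rw [Submodule.map_sup, ← w4_tau z w g hz hg]
  apply le_antisymm
  · refine sup_le le_sup_left ?_
    rw [Submodule.span_le]
    rintro _ ⟨q, rfl⟩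
    have h1 := jc_tau D θ z w g hz hg q
    have h2 : jc (mu D θ z) z q = (jc (mu D θ z) z q - g.det • tau g (jc (mu D θ w) w q)) +
        g.det • tau g (jc (mu D θ w) w q) := by abel
    rw [SetLike.mem_coe, h2]
    refine Submodule.add_mem_sup h1 (Submodule.smul_mem _ _ (Submodule.mem_map_of_mem ?_))
    exact Submodule.subset_span ⟨q, rfl⟩
  · refine sup_le le_sup_left ?_
    rw [Submodule.map_le_iff_le_comap, Submodule.span_le]
    rintro _ ⟨q, rfl⟩
    have h1 := jc_tau D θ z w g hz hg q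
    have h2 : tau g (jc (mu D θ w) w q) =
        g.det⁻¹ • (-(jc (mu D θ z) z q - g.det • tau g (jc (mu D θ w) w q)) +
          jc (mu D θ z) z q) := by
      rw [neg_sub, sub_add_cancel, smul_smul, inv_mul_cancel₀ hg, one_smul]
    rw [SetLike.mem_coe, Submodule.mem_comap, h2]
    refine Submodule.smul_mem _ _ (Submodule.add_mem_sup (Submodule.neg_mem _ h1) ?_)
    exact Submodule.subset_span ⟨q, rfl⟩

theorem asp_tau (hz : ∀ i l, z i l = ∑ k, g i k * w k l) (hg : g.det ≠ 0) :
    Asp D θ z = (Asp D θ w).map (tau g) := by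
  unfold Asp
  rw [Submodule.map_sup, ← w4_tau z w g hz hg]
  apply le_antisymm
  · refine sup_le le_sup_left ?_
    rw [Submodule.span_le]
    rintro _ ⟨s, rfl⟩
    have h1 := mu_tau D θ z w g hz hg s
    have h2 : mu D θ z s = (mu D θ z s - tau g (mu D θ w s)) + tau g (mu D θ w s) := by abel
    rw [SetLike.mem_coe, h2]
    exact Submodule.add_mem_sup h1 (Submodule.mem_map_of_mem (Submodule.subset_span ⟨s, rfl⟩))
  · refine sup_le le_sup_left ?_
    rw [Submodule.map_le_iff_le_comap, Submodule.span_le]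
    rintro _ ⟨s, rfl⟩
    have h1 := mu_tau D θ z w g hz hg s
    have h2 : tau g (mu D θ w s) = -(mu D θ z s - tau g (mu D θ w s)) + mu D θ z s := by abel
    rw [SetLike.mem_coe, Submodule.mem_comap, h2]
    exact Submodule.add_mem_sup (Submodule.neg_mem _ h1) (Submodule.subset_span ⟨s, rfl⟩)

/-- **`Moves` does not depend on the basis of the line.** -/
theorem moves_tau {T : ℕ} (hz : ∀ i l, z i l = ∑ k, g i k * w k l) (hg : g.det ≠ 0) :
    Moves T D θ z ↔ Moves T D θ w := by
  unfold Moves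
  rw [jsp_tau D θ z w g hz hg, asp_tau D θ z w g hz hg]
  have hi := tau_inj (σ := σ) (τ := τ) g hg
  rw [← (Submodule.equivMapOfInjective (tau g) hi (Jsp D θ w)).finrank_eq,
    ← (Submodule.equivMapOfInjective (tau g) hi (Asp D θ w)).finrank_eq]

/-- the echelon basis of the line through `z` at the coordinates `α`, `β` -/
def ech (z : Fin 2 → σ → E) (α β : σ) : Fin 2 → σ → E :=
  ![fun l => pl z l β / pl z α β, fun l => pl z α l / pl z α β]

theorem ech_eq (α β : σ) (h : pl z α β ≠ 0) (i : Fin 2) (l : σ) :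
    z i l = ∑ k, (!![z 0 α, z 0 β; z 1 α, z 1 β] : Matrix (Fin 2) (Fin 2) E) i k *
      ech z α β k l := by
  have h' : z 0 α * z 1 β - z 0 β * z 1 α ≠ 0 := h
  have key : ∀ a b : E, a * (pl z l β / pl z α β) + b * (pl z α l / pl z α β) =
      (a * pl z l β + b * pl z α l) / pl z α β := by
    intro a b; rw [add_div, mul_div_assoc, mul_div_assoc]
  fin_cases i
  · change z 0 l = ∑ k, _
    rw [Fin.sum_univ_two]
    change z 0 l = z 0 α * (pl z l β / pl z α β) + z 0 β * (pl z α l / pl z α β)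
    rw [key, eq_div_iff h]
    unfold pl; ring
  · change z 1 l = ∑ k, _
    rw [Fin.sum_univ_two]
    change z 1 l = z 1 α * (pl z l β / pl z α β) + z 1 β * (pl z α l / pl z α β)
    rw [key, eq_div_iff h]
    unfold pl; ring

theorem pl_ech (α β : σ) (h : pl z α β ≠ 0) (j l : σ) :
    pl (ech z α β) j l = pl z j l / pl z α β := by
  have h1 := pl_tau z (ech z α β) _ (fun i l => ech_eq z α β h i l) j l
  rw [Matrix.det_fin_two_of] at h1
  have h2 : z 0 α * z 1 β - z 0 β * z 1 α = pl z α β := rfl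
  rw [h2] at h1
  rw [h1, mul_div_cancel_left₀ _ h]

end

end Pool.Agent.Helper74.LN
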