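import Pool.Agent.Helper8.LG.UltraCore
import Pool.Agent.Helper74.LN.RigidL
import Pool.Agent.Helper74.LN.MovesHom
import Pool.Agent.Helper74.LN.Tau

/-!
# LN-COREL: rigidity inside a large field, lines

Copy of `Helper49.LV.ul_core_line` with `rigid_ln`: the echelon basis `ech z α β` has its
coordinates `P_jl / P_αβ` in the field `F = L(c)`; `moves_tau` (change of basis) and `moves_hom`
(descent to `F`).
-/

set_option autoImplicit false

namespace Pool.Agent.Helper74.LN

open scoped BigOperators
open Pool.Agent.Helper8.LG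

theorem core_ln {k L Ω : Type*} [Field k] [Field L] [Field Ω] [CharZero Ω] [Algebra k L]
    [Algebra L Ω] [Algebra k Ω] [IsScalarTower k L Ω]
    (K : Subring Ω) (hkK : ∀ b : k, algebraMap k Ω b ∈ K) (hLD : UlDisj k (L := L) K)
    {n : ℕ} (c : Fin n → Ω) (hcK : ∀ r, c r ∈ K)
    {σ τ : Type*} [Fintype σ] [DecidableEq σ] [Fintype τ] {d : ℕ}
    (D : Sym σ d → Derivation ℤ Ω Ω) (θ : τ → Sym σ d → L)
    (hDL : ∀ p b, ∃ b', D p (algebraMap L Ω b) = algebraMap L Ω b')
    (hDk : ∀ p (b : k), D p (algebraMap k Ω b) = 0)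
    (hDc : ∀ p r, D p (c r) = 0) (T : ℕ)
    (hT : 6 * Fintype.card σ + 2 * Fintype.card τ ≤ T * (T + 1) + 6)
    (z : Fin 2 → σ → Ω) (hz : ∃ α β, pl z α β ≠ 0) (G : Ω) (hG : G ≠ 0)
    (hGz : ∀ j l, G * pl z j l ∈ Algebra.adjoin L (Set.range c))
    (hm : Moves T D (fun j s => algebraMap L Ω (θ j s)) z) :
    ∃ G' : Ω, G' ≠ 0 ∧ ∀ j l, IsAlgebraic L (G' * pl z j l) := by
  classical
  obtain ⟨α, β, hαβ⟩ := hz
  set F : IntermediateField L Ω := IntermediateField.adjoin L (Set.range c) with hF
  have hsub : ∀ z ∈ Algebra.adjoin L (Set.range c), z ∈ F := fun z hz =>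
    IntermediateField.algebra_adjoin_le_adjoin L _ hz
  have hFcl : F.toSubfield = Subfield.closure (Set.range (algebraMap L Ω) ∪ Set.range c) :=
    IntermediateField.adjoin_toSubfield L _
  -- the generators
  set c' : Fin n → F := fun r => ⟨c r, IntermediateField.subset_adjoin L _ ⟨r, rfl⟩⟩ with hc'
  have himg : ∀ B : Set (Fin n), (F.val : F → Ω) '' (c' '' B) = c '' B := by
    intro B
    rw [← Set.image_comp]
    rfl
  have hrange : (F.val : F → Ω) '' (Set.range c') = Set.range c := by
    rw [← Set.image_univ, himg, Set.image_univ]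
  have hgen : IntermediateField.adjoin L (Set.range c') = ⊤ := by
    apply IntermediateField.lift_injective F
    rw [IntermediateField.lift_adjoin, IntermediateField.lift_top]
    have h1 : (Subtype.val : F → Ω) '' (Set.range c') = Set.range c := hrange
    rw [h1]
  obtain ⟨B, hB1, hB2⟩ := ul_basis (k := k) c'
  have hB3 : AlgebraicIndependent k (fun b : B => c b) :=
    (AlgHom.algebraicIndependent_iff (x := fun b : B => c' b) ((F.val).restrictScalars k)
      Subtype.val_injective).2 hB1
  have hB4 : AlgebraicIndependent L (fun b : B => c b) :=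
    ul_algInd K hkK hLD _ (fun b => hcK b) hB3
  have hB5 : AlgebraicIndependent L (fun b : B => c' b) :=
    (AlgHom.algebraicIndependent_iff (x := fun b : B => c' b) F.val Subtype.val_injective).1 hB4
  have halg : ∀ r, IsAlgebraic (IntermediateField.adjoin k (c' '' B)) (c' r) := by
    intro r
    have h1 := hB2 r
    obtain ⟨p, hp0, hp⟩ := h1
    set φ : Algebra.adjoin k (c' '' B) →+* IntermediateField.adjoin k (c' '' B) :=
      { toFun := fun z => ⟨z, IntermediateField.algebra_adjoin_le_adjoin k _ z.2⟩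
        map_one' := rfl
        map_mul' := fun _ _ => rfl
        map_zero' := rfl
        map_add' := fun _ _ => rfl } with hφ
    have hφi : Function.Injective φ := by
      intro u v huv
      apply Subtype.ext
      exact congrArg (fun z : IntermediateField.adjoin k (c' '' B) => (z : F)) huv
    refine ⟨p.map φ, ?_, ?_⟩
    · rwa [Ne, Polynomial.map_eq_zero_iff hφi]
    · rw [Polynomial.aeval_def, Polynomial.eval₂_map]
      exact hp
  -- the derivations
  have hst : ∀ p, ∀ f ∈ F, D p f ∈ F := by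
    intro p f hf
    have hf' : f ∈ F.toSubfield := hf
    rw [hFcl] at hf'
    have h1 := rg_stable (D p) (Set.range (algebraMap L Ω) ∪ Set.range c) ?_ f hf'
    · rw [← hFcl] at h1
      exact h1
    · rintro g (⟨z, rfl⟩ | ⟨r, rfl⟩)
      · obtain ⟨z', hz'⟩ := hDL p z
        rw [hz']
        exact Subfield.subset_closure (Or.inl ⟨z', rfl⟩)
      · rw [hDc]
        exact zero_mem _
  set δ : Sym σ d → Derivation ℤ F F := fun p =>
    Derivation.mk' (AddMonoidHom.toIntLinearMap
      { toFun := fun f => (⟨D p f, hst p f f.2⟩ : F)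
        map_zero' := Subtype.ext (map_zero (D p))
        map_add' := fun f g => Subtype.ext (map_add (D p) (f : Ω) g) })
      (fun f g => Subtype.ext ((D p).leibniz (f : Ω) g)) with hδ
  have hδv : ∀ p (f : F), ((δ p f : F) : Ω) = D p f := fun p f => rfl
  have hamap : ∀ b : L, ((algebraMap L F b : F) : Ω) = algebraMap L Ω b := fun b => rfl
  -- the line
  have hquo : ∀ j l, pl z j l / pl z α β ∈ F := by
    intro j l
    have h2 : pl z j l / pl z α β = G * pl z j l / (G * pl z α β) := by field_simp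
    rw [h2]
    exact div_mem (hsub _ (hGz j l)) (hsub _ (hGz α β))
  set w' : Fin 2 → σ → F := ![fun l => ⟨pl z l β / pl z α β, hquo l β⟩,
    fun l => ⟨pl z α l / pl z α β, hquo α l⟩] with hw'
  have hw : (fun e l => F.val (w' e l)) = ech z α β := by
    funext e l
    fin_cases e <;> rfl
  have hw2 : ∀ e l, ((w' e l : F) : Ω) = ech z α β e l := fun e l => congrFun (congrFun hw e) l
  have hplw : ∀ j l, ((pl w' j l : F) : Ω) = pl z j l / pl z α β := by
    intro j l
    rw [← pl_ech (z := z) α β hαβ j l]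
    unfold pl
    push_cast
    rw [hw2, hw2, hw2, hw2]
  have hdet : (!![z 0 α, z 0 β; z 1 α, z 1 β] : Matrix (Fin 2) (Fin 2) Ω).det ≠ 0 := by
    rw [Matrix.det_fin_two_of]
    exact hαβ
  have hm2 : Moves T D (fun j s => algebraMap L Ω (θ j s)) (ech z α β) :=
    (moves_tau D _ z (ech z α β) _ (ech_eq (z := z) α β hαβ) hdet).1 hm
  have hm3 : Moves T δ (fun j s => algebraMap L F (θ j s)) w' := by
    rw [moves_hom (F.val : F →+* Ω) T D δ (fun s x => rfl)]
    have h1 : (fun j s => (F.val : F →+* Ω) (algebraMap L F (θ j s))) =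
        fun j s => algebraMap L Ω (θ j s) := rfl
    have h2 : (fun e l => (F.val : F →+* Ω) (w' e l)) = ech z α β := hw
    rw [h1, h2]
    exact hm2
  have hcz : CharZero F := inferInstance
  obtain ⟨G0, hG0, hG1⟩ := rigid_ln (k := k) (L := L) (E := F) c' hgen B hB5 halg δ θ
    (fun p b => by
      obtain ⟨b', hb'⟩ := hDL p b
      exact ⟨b', Subtype.ext hb'⟩)
    (fun p b => Subtype.ext (hDk p b)) (fun p r => Subtype.ext (hDc p r)) T hT w'
    ⟨α, β, fun h0 => by
      have h1 := hplw α β
      rw [h0, div_self hαβ] at h1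
      exact zero_ne_one h1⟩ hm3
  refine ⟨(G0 : Ω) / pl z α β, div_ne_zero (fun h0 => hG0 (Subtype.ext h0)) hαβ, fun j l => ?_⟩
  have h1 := (hG1 j l).algHom F.val
  have h2 : F.val (G0 * pl w' j l) = (G0 : Ω) / pl z α β * pl z j l := by
    have h3 : F.val (G0 * pl w' j l) = (G0 : Ω) * ((pl w' j l : F) : Ω) := rfl
    rw [h3, hplw]
    ring
  rw [h2] at h1
  exact h1

end Pool.Agent.Helper74.LN
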