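import Pool.Agent.Helper8.LG.Ultra
import Pool.Agent.Helper74.LN.CoreL

/-!
# LN-ULTRAL: an infinite set of points with bounded moving lines has infinitely many points on one
line

Copy of `Helper49.LV.ultra_line` with `core_ln` instead of `ul_core_line` (`moves_ultra` for the
hypothesis `Moves`; the bounded functions are the `G P_jl`).
-/

set_option autoImplicit false

namespace Pool.Agent.Helper74.LN

open scoped BigOperators
open Pool.Agent.Helper8.LG

theorem ultra_ln {k L : Type*} [Field k] [Field L] [CharZero L] [Algebra k L]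
    {σ τ : Type*} [Fintype σ] [DecidableEq σ] [Fintype τ] {d : ℕ}
    (D : Sym σ d → Derivation ℤ L L) (θ : τ → Sym σ d → L)
    (hDk : ∀ p (c : k), D p (algebraMap k L c) = 0) (T : ℕ)
    (hT : 6 * Fintype.card σ + 2 * Fintype.card τ ≤ T * (T + 1) + 6)
    (V : Submodule k L) [FiniteDimensional k V] (S : Set (σ → L)) (hinf : S.Infinite)
    (hS : ∀ x ∈ S, ∃ (y : σ → L) (G : L), (∃ j l, pl ![x, y] j l ≠ 0) ∧ G ≠ 0 ∧
      (∀ j l, G * pl ![x, y] j l ∈ V) ∧ Moves T D θ ![x, y]) :
    ∃ (α β : σ) (u v : σ → L), α ≠ β ∧ u α = 1 ∧ u β = 0 ∧ v α = 0 ∧ v β = 1 ∧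
      {x ∈ S | ∀ l, x l = x α * u l + x β * v l}.Infinite := by
  classical
  set X : ℕ → σ → L := fun m => (hinf.natEmbedding S m : σ → L) with hX
  have hXS : ∀ m, X m ∈ S := fun m => (hinf.natEmbedding S m).2
  have hXi : Function.Injective X := fun u v huv =>
    (hinf.natEmbedding S).injective (Subtype.ext huv)
  have hS' := fun m => hS (X m) (hXS m)
  choose Y G hne0 hG0 hGx hXm using hS'
  obtain ⟨Ω, instΩ, Q, hQ, hker⟩ := ul_exists L
  let algLΩ : Algebra L Ω := (Q.comp (Pi.constRingHom ℕ L)).toAlgebra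
  let algkΩ : Algebra k Ω := ((algebraMap L Ω).comp (algebraMap k L)).toAlgebra
  have : IsScalarTower k L Ω := IsScalarTower.of_algebraMap_eq fun _ => rfl
  have : CharZero Ω := charZero_of_injective_algebraMap (algebraMap L Ω).injective
  have halgL : ∀ b : L, algebraMap L Ω b = Q fun _ => b := fun _ => rfl
  have halgk : ∀ b : k, algebraMap k Ω b = Q fun _ => algebraMap k L b := fun _ => rfl
  -- the constants
  set K : Subring Ω := (Q.comp ((algebraMap k L).compLeft ℕ)).range with hK
  have hQK : ∀ g : ℕ → k, Q (fun m => algebraMap k L (g m)) ∈ K := fun g => ⟨g, rfl⟩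
  have hLD : UlDisj k (L := L) K := by
    intro J hJ T z hz hsum
    choose g hg using hz
    have hg' : ∀ b, Q (fun m => algebraMap k L (g b m)) = z b := fun b => hg b
    have h1 := ul_disj Q hker J hJ T g (by
      rw [← hsum]
      exact Finset.sum_congr rfl fun b _ => by rw [hg', halgL])
    intro b hb
    rw [← hg']
    exact h1 b hb
  -- the sequences
  set bV := Module.finBasis k V with hbV
  set r := Module.finrank k V with hr
  set h : σ × σ → ℕ → L := fun η m' => G m' * pl ![X m', Y m'] η.1 η.2 with hh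
  have hhV : ∀ η m', h η m' ∈ V := fun η m' => hGx m' η.1 η.2
  set c₀ : (σ × σ) × Fin r → Ω := fun ηj => Q fun m' =>
    algebraMap k L (bV.repr ⟨h ηj.1 m', hhV ηj.1 m'⟩ ηj.2) with hc₀
  set eqv := (Fintype.equivFin ((σ × σ) × Fin r)).symm with heqv
  set c : Fin (Fintype.card ((σ × σ) × Fin r)) → Ω := fun s => c₀ (eqv s) with hc
  have hcmem : ∀ ηj, c₀ ηj ∈ Algebra.adjoin L (Set.range c) := fun ηj =>
    Algebra.subset_adjoin ⟨eqv.symm ηj, by rw [hc]; simp⟩
  have hhc : ∀ η, Q (h η) ∈ Algebra.adjoin L (Set.range c) := by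
    intro η
    have h1 : Q (h η) = ∑ j, algebraMap L Ω (bV j : L) * c₀ (η, j) := by
      have h2 : h η = ∑ j, (fun _ => (bV j : L)) *
          (fun m' => algebraMap k L (bV.repr ⟨h η m', hhV η m'⟩ j)) := by
        funext m'
        rw [Finset.sum_apply]
        have h3 := congrArg (Subtype.val : V → L) (bV.sum_repr ⟨h η m', hhV η m'⟩)
        rw [Submodule.coe_sum] at h3
        have h4 : ((⟨h η m', hhV η m'⟩ : V) : L) = h η m' := rfl
        rw [h4] at h3
        rw [← h3]
        refine Finset.sum_congr rfl fun j _ => ?_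
        show _ = (bV j : L) * algebraMap k L (bV.repr ⟨h η m', hhV η m'⟩ j)
        rw [Submodule.coe_smul, Algebra.smul_def, mul_comm]
      conv_lhs => rw [h2]
      rw [map_sum]
      exact Finset.sum_congr rfl fun j _ => by rw [map_mul]; rfl
    rw [h1]
    exact sum_mem fun j _ => mul_mem (Subalgebra.algebraMap_mem _ _) (hcmem _)
  -- the line
  set z : Fin 2 → σ → Ω := fun e l => Q fun m' => (![X m', Y m'] : Fin 2 → σ → L) e l with hz
  have hpl : ∀ j l, pl z j l = Q fun m' => pl ![X m', Y m'] j l := by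
    intro j l
    have h1 : (fun m' => pl ![X m', Y m'] j l) =
        (fun m' => X m' j) * (fun m' => Y m' l) - (fun m' => X m' l) * fun m' => Y m' j := rfl
    rw [h1, map_sub, map_mul, map_mul]
    rfl
  have hzne : ∃ α β, pl z α β ≠ 0 := by
    by_contra hcon
    push Not at hcon
    have h1 : ∀ j l, ∀ᶠ m' in (Filter.hyperfilter ℕ : Filter ℕ), pl ![X m', Y m'] j l = 0 := by
      intro j l
      have h2 := hcon j l
      rw [hpl, hker] at h2
      exact h2
    have h2 : ∀ᶠ m' in (Filter.hyperfilter ℕ : Filter ℕ), ∀ j l, pl ![X m', Y m'] j l = 0 :=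
      Filter.eventually_all.2 fun j => Filter.eventually_all.2 fun l => h1 j l
    obtain ⟨m', hm'⟩ := h2.exists
    obtain ⟨j, l, hjl⟩ := hne0 m'
    exact hjl (hm' j l)
  -- the core
  have hcore := core_ln (k := k) (L := L) K (fun b => by rw [halgk]; exact hQK fun _ => b)
    hLD c (fun s => hQK _) (fun p => ulDer Q hQ hker (D p)) θ
    (fun p b => ⟨D p b, ulDer_apply Q hQ hker (D p) _⟩) ?_ ?_ T hT z hzne (Q G) ?_ ?_
    (moves_ultra Q hQ hker T D θ (fun m' => ![X m', Y m']) hXm)
  · -- conclusion
    obtain ⟨G', hG', halg⟩ := hcore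
    obtain ⟨α, β, hαβ⟩ := hzne
    have hconst : ∀ z : Ω, IsAlgebraic L z → ∃ b : L, algebraMap L Ω b = z := by
      rintro z ⟨p, hp0, hp⟩
      obtain ⟨f, rfl⟩ := hQ z
      have h1 : ∀ᶠ m' in (Filter.hyperfilter ℕ : Filter ℕ), p.eval (f m') = 0 := by
        rw [← hker (fun m' => p.eval (f m')), ul_Q_eval Q]
        exact hp
      have h2 : ∃ b ∈ (p.roots.toFinset : Set L),
          ∀ᶠ m' in (Filter.hyperfilter ℕ : Filter ℕ), f m' = b := by
        refine (Ultrafilter.eventually_exists_mem_iff p.roots.toFinset.finite_toSet).mp ?_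
        filter_upwards [h1] with m' hm'
        refine ⟨f m', ?_, rfl⟩
        rw [Finset.mem_coe, Multiset.mem_toFinset, Polynomial.mem_roots hp0]
        exact hm'
      obtain ⟨b, -, hb⟩ := h2
      refine ⟨b, ?_⟩
      rw [halgL, ← sub_eq_zero, ← map_sub, hker]
      filter_upwards [hb] with m' hm'
      show b - f m' = 0
      rw [hm', sub_self]
    choose P hP using fun j l => hconst _ (halg j l)
    have hPαβ : P α β ≠ 0 := by
      intro h0
      have h1 := hP α β
      rw [h0, map_zero] at h1
      exact mul_ne_zero hG' hαβ h1.symm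
    have hdiag : ∀ j, P j j = 0 := by
      intro j
      apply (algebraMap L Ω).injective
      rw [hP j j, map_zero]
      show G' * (z 0 j * z 1 j - z 0 j * z 1 j) = 0
      ring
    have hne : α ≠ β := by
      rintro rfl
      exact hPαβ (hdiag α)
    refine ⟨α, β, fun l => P l β / P α β, fun l => P α l / P α β, hne, div_self hPαβ, ?_, ?_,
      div_self hPαβ, ?_⟩
    · show P β β / P α β = 0
      rw [hdiag, zero_div]
    · show P α α / P α β = 0
      rw [hdiag, zero_div]
    have hrel : ∀ l, ∀ᶠ m' in (Filter.hyperfilter ℕ : Filter ℕ),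
        X m' l = X m' α * (P l β / P α β) + X m' β * (P α l / P α β) := by
      intro l
      have h1 : (Q fun m' => X m' l - (X m' α * (P l β / P α β) + X m' β * (P α l / P α β))) =
          0 := by
        have h2 : (Q fun m' => X m' l - (X m' α * (P l β / P α β) +
            X m' β * (P α l / P α β))) = z 0 l -
            (z 0 α * algebraMap L Ω (P l β / P α β) + z 0 β * algebraMap L Ω (P α l / P α β)) := by
          rw [halgL, halgL]
          show _ = (Q fun m' => X m' l) - ((Q fun m' => X m' α) * (Q fun _ => P l β / P α β) +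
            (Q fun m' => X m' β) * Q fun _ => P α l / P α β)
          rw [← map_mul, ← map_mul, ← map_add, ← map_sub]
          rfl
        have h3 : pl z α β ≠ 0 := hαβ
        rw [h2, map_div₀, map_div₀, hP, hP, hP, mul_div_mul_left _ _ hG', mul_div_mul_left _ _ hG']
        have h4 : z 0 l * pl z α β = z 0 α * pl z l β + z 0 β * pl z α l := by
          unfold pl
          ring
        field_simp
        rw [h4]
        ring
      rw [hker] at h1
      filter_upwards [h1] with m' hm'
      exact sub_eq_zero.mp hm'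
    have hrel' : ∀ᶠ m' in (Filter.hyperfilter ℕ : Filter ℕ), ∀ l,
        X m' l = X m' α * (P l β / P α β) + X m' β * (P α l / P α β) :=
      Filter.eventually_all.2 hrel
    have hinf' : {m' : ℕ | ∀ l, X m' l = X m' α * (P l β / P α β) +
        X m' β * (P α l / P α β)}.Infinite := by
      intro hfin
      exact Filter.notMem_hyperfilter_of_finite hfin hrel'
    refine (hinf'.image hXi.injOn).mono ?_
    rintro _ ⟨m', hm', rfl⟩
    exact ⟨hXS m', hm'⟩
  · intro p b
    rw [halgk, ulDer_apply]
    rw [hker]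
    exact Filter.Eventually.of_forall fun m' => hDk p b
  · intro p s
    show ulDer Q hQ hker (D p) (Q _) = 0
    rw [ulDer_apply, hker]
    exact Filter.Eventually.of_forall fun m' => hDk p _
  · intro h0
    rw [hker] at h0
    obtain ⟨m', hm'⟩ := h0.exists
    exact hG0 m' hm'
  · intro j l
    rw [hpl, ← map_mul]
    exact hhc (j, l)

end Pool.Agent.Helper74.LN
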