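import Pool.Agent.Helper10.LN.MainN
import Pool.Agent.Helper74.LN.EngN

/-!
# LN-FINAL: finitely many lines, over schemes

The version of `Helper10.LN.FinalN` with `w` (bound for the transcendence degree of the points).
-/

set_option autoImplicit false

open AlgebraicGeometry CategoryTheory CategoryTheory.Limits MvPolynomial

namespace Pool.Agent.Helper74.LN

open Pool.Agent.Helper10.LN

open scoped BigOperators LinearAlgebra.Projectivization
open Pool.Agent.Helper8.LG hiding coeffField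
open Pool.Agent.Helper10.LB

attribute [local instance] MvPolynomial.gradedAlgebra

universe u v

/-- the engine, closed case, in the form used here -/
theorem eng_c {k₀ L : Type*} [Field k₀] [Field L] [CharZero L] [Algebra k₀ L]
    (hfg : (⊤ : IntermediateField k₀ L).FG) {N n : ℕ} (w d q : ℕ) (b : Fin n → ℕ)
    (hbq : ∀ j, b j + q ≤ d) (F : MvPolynomial (Fin (N + 1)) L)
    (A : MvPolynomial (Fin (N + 1)) k₀) (hA : A.IsHomogeneous d)
    (P : Fin n → MvPolynomial (Fin (N + 1)) k₀) (hP : ∀ j, (P j).IsHomogeneous (b j))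
    (H : Fin n → MvPolynomial (Fin (N + 1)) L) (hH : ∀ j, (H j).IsHomogeneous (d - b j))
    (hFA : F = map (algebraMap k₀ L) A + ∑ j, map (algebraMap k₀ L) (P j) * H j) (c : ℕ)
    (hcoef : ((∑ j, (N + (d - b j)).choose N : ℕ) : Cardinal) ≤
      Algebra.trdeg k₀ (IntermediateField.adjoin k₀ {z | ∃ j J, z = coeff J (H j)}) + c)
    (h0 : w = N ∨ 2 * N + w + c + 55 ≤ 10 * q) (h1 : 3 * w + 3 + c ≤ 2 * q)
    (h3 : 6 * N + 2 * c ≤ (q - 2) * (q - 1)) (Cl : Prop) (hCl : Cl) :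
    ∃ Λ' : Set (Submodule L (Fin (N + 1) → L)),
      Λ'.Finite ∧ (∀ W' ∈ Λ', Module.finrank L W' ≤ 2 ∧
        (∀ y ∈ W', eval y F = 0) ∧ q + 2 < 2 * N + c) ∧ ∀ i₀ : Fin (N + 1),
        {y : Fin (N + 1) → L | y i₀ = 1 ∧ CondN' Cl F P w y ∧ (∀ W' ∈ Λ', y ∉ W')}.Finite := by
  by_cases hq : 2 * N + c ≤ q + 2
  · refine ⟨∅, Set.finite_empty, fun W' h => absurd h (Set.notMem_empty _), fun i₀ => ?_⟩
    refine (Pool.Agent.Helper74.LN.eng_none hfg w d q b hbq F A hA P hP H hH hFA c hcoef h0 h1 h3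
      hq i₀).subset ?_
    rintro y ⟨h2, h3, -⟩
    exact ⟨h2, h3.2.1, h3.1, h3.2.2 hCl⟩
  · obtain ⟨Λ', h2, h3, h4⟩ := Pool.Agent.Helper74.LN.eng_closed hfg w d q b hbq F A hA P hP H
      hH hFA c hcoef h0 h1 h3
    refine ⟨Λ', h2, fun W' hW' => ⟨(h3 W' hW').1.le, (h3 W' hW').2, by omega⟩, fun i₀ => ?_⟩
    refine (h4 i₀).subset ?_
    rintro y ⟨h5, h6, h7⟩
    exact ⟨h5, h6.2.1, h6.1, h6.2.2 hCl, h7⟩

/-- the engine, open case, in the form used here -/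
theorem eng_o {k₀ L : Type*} [Field k₀] [Field L] [CharZero L] [Algebra k₀ L]
    (hfg : (⊤ : IntermediateField k₀ L).FG) {N n : ℕ} (w d q : ℕ) (b : Fin n → ℕ)
    (hbq : ∀ j, b j + q ≤ d) (F : MvPolynomial (Fin (N + 1)) L)
    (A : MvPolynomial (Fin (N + 1)) k₀) (hA : A.IsHomogeneous d)
    (P : Fin n → MvPolynomial (Fin (N + 1)) k₀) (hP : ∀ j, (P j).IsHomogeneous (b j))
    (H : Fin n → MvPolynomial (Fin (N + 1)) L) (hH : ∀ j, (H j).IsHomogeneous (d - b j))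
    (hFA : F = map (algebraMap k₀ L) A + ∑ j, map (algebraMap k₀ L) (P j) * H j) (c : ℕ)
    (hcoef : ((∑ j, (N + (d - b j)).choose N : ℕ) : Cardinal) ≤
      Algebra.trdeg k₀ (IntermediateField.adjoin k₀ {z | ∃ j J, z = coeff J (H j)}) + c)
    (h0 : w = N ∨ 2 * N + w + c + 56 ≤ 10 * q) (h1 : 3 * w + 4 + c ≤ 2 * q) (h2 : 3 ≤ q)
    (h3 : 6 * N + 2 * c ≤ (q - 3) * (q - 2)) (Cl : Prop) (R : Subalgebra k₀ L) (hR : R.FG) :
    ∃ Λ' : Set (Submodule L (Fin (N + 1) → L)),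
      Λ'.Finite ∧ (∀ W' ∈ Λ', Module.finrank L W' ≤ 2) ∧ ∀ i₀ : Fin (N + 1),
        {y : Fin (N + 1) → L | y i₀ = 1 ∧ CondN' Cl F P w y ∧ (∀ W' ∈ Λ', y ∉ W') ∧
          eval y F ≠ 0 ∧ ∀ J : Sym (Fin (N + 1)) d, mon y J / eval y F ∈ R}.Finite := by
  obtain ⟨Λ', h2, h3, h4⟩ := Pool.Agent.Helper74.LN.eng_open hfg w d q b hbq F A hA P hP H hH
    hFA c hcoef h0 h1 h2 h3 R hR
  refine ⟨Λ', h2, h3, fun i₀ => Set.Finite.subset Set.finite_empty ?_⟩
  rintro y ⟨h5, h6, h7, h8, h9⟩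
  obtain ⟨W', hW', hy⟩ := h4 i₀ y h5 h6.2.1 h6.1 h8 h9
  exact h7 W' hW' hy

set_option maxHeartbeats 400000 in
/-- **A finite set and finitely many lines**, over schemes. -/
theorem main_n (R : CommRingCat.{u}) (B : Scheme.{u}) [IsIntegral B] (s : B ⟶ Spec R)
    [LocallyOfFiniteType s] [CharZero B.functionField]
    (U : Scheme.{u}) (π : U ⟶ B) [IsSeparated π] [LocallyOfFiniteType π] [QuasiCompact π]
    {N n : ℕ} (d q : ℕ) (b : Fin n → ℕ) (hb : ∀ j, b j + q ≤ d)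
    (F : MvPolynomial (Fin (N + 1)) B.functionField) (hF : F.IsHomogeneous d)
    (f : genFib π ⟶ PN N B.functionField) (hf : f ≫ PN.toSpec N _ = pullback.snd _ _)
    [LocallyQuasiFinite f]
    (Cl : Prop) (hU : ¬Cl → ∀ z : genFib π, NonVanishing (f z) F)
    (k₀ : Subfield B.functionField)
    (hk₀ : ∀ r : R, (Spec.preimage (B.fromSpecStalk (genericPoint B) ≫ s)).hom r ∈ k₀)
    (M : Type v) [Field M] [Algebra B.functionField M]
    (hM : (⊤ : IntermediateField B.functionField M).FG) (g : GL (Fin (N + 1)) M)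
    (A : MvPolynomial (Fin (N + 1)) k₀) (hA : A.IsHomogeneous d)
    (P : Fin n → MvPolynomial (Fin (N + 1)) k₀) (hP : ∀ j, (P j).IsHomogeneous (b j))
    (H : Fin n → MvPolynomial (Fin (N + 1)) M) (hH : ∀ j, (H j).IsHomogeneous (d - b j))
    (hFA : subst (g : Matrix _ _ M) F =
      map (algebraMap k₀ M) A + ∑ j, map (algebraMap k₀ M) (P j) * H j) (w c : ℕ)
    (hcoef : ((∑ j, (N + (d - b j)).choose N : ℕ) : Cardinal) ≤
      Algebra.trdeg k₀ (IntermediateField.adjoin k₀ {z | ∃ j J, z = coeff J (H j)}) + c)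
    (hnum : (Cl ∧ (w = N ∨ 2 * N + w + c + 55 ≤ 10 * q) ∧ 3 * w + 3 + c ≤ 2 * q ∧
        6 * N + 2 * c ≤ (q - 2) * (q - 1)) ∨
      (¬Cl ∧ (w = N ∨ 2 * N + w + c + 56 ≤ 10 * q) ∧ 3 * w + 4 + c ≤ 2 * q ∧ 3 ≤ q ∧
        6 * N + 2 * c ≤ (q - 3) * (q - 2))) :
    ∃ Λ : Set (Submodule B.functionField (Fin (N + 1) → B.functionField)), Λ.Finite ∧
      (∀ W ∈ Λ, Module.finrank B.functionField W = 2 ∧
        (Cl → (∀ x ∈ W, eval x F = 0) ∧ q + 2 < 2 * N + c) ∧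
        (¬Cl → Algebra.FiniteType ℤ R → MeetsTwice F W)) ∧
      {σ : B ⟶ U | ∃ hσ : σ ≫ π = 𝟙 B, ∀ (t : Spec B.functionField)
        (x : Fin (N + 1) → B.functionField), IsCoord (f (genPt π σ hσ t)) x →
          CondN Cl F g P w x ∧ ∀ W ∈ Λ, x ∉ W}.Finite := by
  classical
  have : CharZero M :=
    charZero_of_injective_algebraMap (algebraMap B.functionField M).injective
  by_cases hn : Nonempty (Fin n)
  swap
  · -- no multipliers
    refine ⟨∅, Set.finite_empty, fun W h => absurd h (Set.notMem_empty _), ?_⟩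
    refine Set.Finite.subset Set.finite_empty ?_
    rintro σ ⟨hσ, h1⟩
    obtain ⟨t⟩ : Nonempty (Spec B.functionField) := inferInstance
    obtain ⟨x, hx⟩ := exists_coord (genPt π σ hσ ≫ f)
      (by rw [Category.assoc, hf]; exact ffib_snd π σ hσ) t
    obtain ⟨j, -⟩ := (h1 t x hx).1.1
    exact hn ⟨j⟩
  obtain ⟨j₀⟩ := hn
  have hd : 0 < d := by
    have := hb j₀
    omega
  obtain ⟨F', hFF'⟩ : ∃ F' : MvPolynomial (Fin (N + 1)) M, F' = subst (g : Matrix _ _ M) F :=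
    ⟨_, rfl⟩
  have hF' : F'.IsHomogeneous d := by
    rw [hFF']
    exact subst_hom _ _ hF
  rw [← hFF'] at hFA
  rcases hnum with ⟨hCl, n0, n1, n3⟩ | ⟨hCl, n0, n1, n2, n3⟩
  · obtain ⟨Λ, h1, h2, h3⟩ := main_closed R B s U π d b F hF f hf k₀ hk₀ M hM g F' hFF' P hP w Cl
      (q + 2 < 2 * N + c) (fun hfg => eng_c hfg w d q b hb F' A hA P hP H hH hFA c hcoef n0
        n1 n3 Cl hCl)
    exact ⟨Λ, h1, fun W hW => ⟨(h2 W hW).1, fun _ => (h2 W hW).2, fun h => absurd hCl h⟩, h3⟩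
  · obtain ⟨Λ, h1, h2, h3⟩ := main_open R B s U π d hd b F hF f hf (hU hCl) k₀ hk₀ M hM g F' hFF'
      hF' P hP w Cl (fun hfg R' hR' => eng_o hfg w d q b hb F' A hA P hP H hH hFA c hcoef n0 n1
        n2 n3 Cl R' hR')
    exact ⟨Λ, h1, fun W hW => ⟨(h2 W hW).1, fun h => absurd h hCl, fun _ => (h2 W hW).2⟩, h3⟩

end Pool.Agent.Helper74.LN
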