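import Pool.Agent.Helper74.LN.UltraP
import Pool.Agent.Helper74.LN.UltraL
import Pool.Agent.Helper74.LN.BoundP
import Pool.Agent.Helper74.LN.BoundL
import Pool.Agent.Helper10.LB.Defs

/-!
# LN-INFLINE: infinitely many points on one line

`key_n` for all `x ∈ S`. If the set of the `x` with `KeyP` is infinite: `bounded_pt`, `ultra_pt`.
Otherwise the set of the `x` with a moving line is infinite: `k2`, `bounded_ln`, `ultra_ln` (for
the derivations `D ⟨default, s⟩`).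
-/

set_option autoImplicit false

namespace Pool.Agent.Helper74.LN

open scoped BigOperators
open Pool.Agent.Helper8.LG
open Pool.Agent.Helper8.LV (Fam Mov Over)
open Pool.Agent.Helper10.LB (Pt)

theorem inf_line {k L : Type*} [Field k] [Field L] [CharZero L] [Algebra k L]
    {σ ι τ : Type*} [Fintype σ] [DecidableEq σ] [Fintype ι] [DecidableEq ι] [Unique ι]
    [Fintype τ] (d b q : ι → ℕ) (a aA : (i : ι) → Sym σ (d i) → L)
    (ap : (i : ι) → Sym σ (b i) → L)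
    (ah : (i : ι) → Sym σ (q i) → L) (hF : Fam d b q a aA ap ah) (hAk : Over k aA)
    (hpk : Over k ap) (hq : ∀ i, 0 < q i) (T : Finset (Ix σ q))
    (hind : AlgebraicIndependent k (fun p : T => ah p.1.1 p.1.2))
    (hfin : FiniteDimensional
      (IntermediateField.adjoin k (Set.range fun p : T => ah p.1.1 p.1.2)) L)
    (D : Ix σ q → Derivation ℤ L L) (jj : τ → Ix σ q) (θ : τ → Ix σ q → L)
    (hD : Dual q ah D jj θ) (hT : ∀ j, jj j ∉ T)
    (hDk : ∀ p (c : k), D p (algebraMap k L c) = 0)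
    (Z : Finset ι) (i₀ j₁ : σ) (hj : j₁ ≠ i₀) (w t : ℕ)
    (h0 : w + 1 = Fintype.card σ ∨
      2 * Fintype.card σ + w + Fintype.card τ + Zᶜ.card + 53 ≤ 10 * q default)
    (h1 : 3 * w + 3 + Zᶜ.card + Fintype.card τ ≤ 2 * q default)
    (h2 : t + Zᶜ.card + 2 ≤ q default)
    (h3 : 6 * Fintype.card σ + 2 * Fintype.card τ ≤ t * (t + 1) + 6)
    (A : Subalgebra k L) (hA : A.FG) (S : Set (σ → L)) (hinf : S.Infinite)
    (hS : ∀ x ∈ S, x i₀ = 1 ∧ Pt a Z A.toSubring x ∧ (∀ i, form (ap i) x ≠ 0) ∧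
      MinorsVanish D x w) :
    ∃ (α β : σ) (u v : σ → L), α ≠ β ∧ u α = 1 ∧ u β = 0 ∧ v α = 0 ∧ v β = 1 ∧
      {x ∈ S | ∀ l, x l = x α * u l + x β * v l}.Infinite := by
  classical
  have hd : ∀ i, 0 < d i := fun i => by
    have h4 := hF.deg i
    have h5 := hq i
    omega
  have hM : Mov d b q a aA ap ah D := hF.mov hAk hpk D hDk
  set M : ℕ := 5 * (Fintype.card σ + Fintype.card ι + Fintype.card τ) ^ 3 with hMdef
  have hkey : ∀ x ∈ S, (∃ G : L, G ≠ 0 ∧ KeyP M d a D θ Z x G) ∨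
      ∃ y : σ → L, (∃ j l, x j * y l - x l * y j ≠ 0) ∧
        Moves t (fun s : Sym σ (q default) => D ⟨default, s⟩)
          (fun j (s : Sym σ (q default)) => θ j ⟨default, s⟩) ![x, y] := fun x hx =>
    key_n d b q hq a aA ap ah D jj θ hD hM Z x i₀ (hS x hx).1 (hS x hx).2.1.zero
      (hS x hx).2.1.ne (hS x hx).2.2.1 w t h0 h1 h2 (hS x hx).2.2.2
  by_cases hK : {x ∈ S | ∃ G : L, G ≠ 0 ∧ KeyP M d a D θ Z x G}.Infinite
  · obtain ⟨V, hVfin, hV⟩ := bounded_pt d b q hd hq a aA ap ah hF hAk hpk T hind hfin D jj θ hD hT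
      hDk Z i₀ M A hA
    obtain ⟨α, β, u, v, hαβ, hu, hu', hv, hv', hline⟩ := ultra_pt d b q hq a aA ap ah hF hAk hpk D
      jj θ hD hDk Z i₀ j₁ hj w t h0 h1 h2 h3 V {x ∈ S | ∃ G : L, G ≠ 0 ∧ KeyP M d a D θ Z x G} hK (by
        rintro x ⟨hx, G, hG0, hG⟩
        obtain ⟨hx1, hxp, hxP, hxw⟩ := hS x hx
        obtain ⟨hv1, hv2⟩ := hV x G hx1 hxp.ne hxp.int hG0 hG
        exact ⟨hx1, hxp.zero, hxp.ne, hxP, hxw, G, hG0, hv1, hv2⟩)
    refine ⟨α, β, u, v, hαβ, hu, hu', hv, hv', hline.mono ?_⟩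
    rintro x ⟨⟨hx, _⟩, hx'⟩
    exact ⟨hx, hx'⟩
  · have hK' : (S \ {x ∈ S | ∃ G : L, G ≠ 0 ∧ KeyP M d a D θ Z x G}).Infinite :=
      hinf.sdiff (Set.not_infinite.1 hK)
    obtain ⟨V, hVfin, hV⟩ := bounded_ln q ah T hind hfin D jj θ hD hT hDk
    obtain ⟨α, β, u, v, hαβ, hu, hu', hv, hv', hline⟩ := ultra_ln
      (fun s : Sym σ (q default) => D ⟨default, s⟩)
      (fun j (s : Sym σ (q default)) => θ j ⟨default, s⟩) (fun p c => hDk _ c) t h3 V
      (S \ {x ∈ S | ∃ G : L, G ≠ 0 ∧ KeyP M d a D θ Z x G}) hK' (by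
        rintro x ⟨hx, hxn⟩
        rcases hkey x hx with h4 | ⟨y, hy, hmv⟩
        · exact absurd ⟨hx, h4⟩ hxn
        · obtain ⟨G, hG0, hG⟩ := k2 (fun s : Sym σ (q default) => D ⟨default, s⟩)
            (fun j (s : Sym σ (q default)) => θ j ⟨default, s⟩) ![x, y] hy t hmv h3
          exact ⟨y, G, hy, hG0, hV _ G hG, hmv⟩)
    refine ⟨α, β, u, v, hαβ, hu, hu', hv, hv', hline.mono ?_⟩
    rintro x ⟨⟨hx, _⟩, hx'⟩
    exact ⟨hx, hx'⟩

end Pool.Agent.Helper74.LN
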