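import Pool.Agent.Helper74.LN.Lam
import Pool.Agent.Helper49.LN.KeyOne
import Pool.Agent.Helper49.LN.ToMoves

/-!
# LN-KEYN: the dichotomy of the key lemma for one moving form

`ι` has one element, `Zᶜ.card` is the number of logarithmic rows (0 or 1). Either the point is
bounded (determinants G1, G2) or there is a line through it which moves in at least `T` dimensions
(`rho ≥ q - 2`, `R ≥ rho - Zᶜ.card ≥ T`). `w + 1` bounds the rank of `(x, D_s x)`.
-/

set_option autoImplicit false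

namespace Pool.Agent.Helper74.LN

open Pool.Agent.Helper8.LG (mon form Ix Bdd Dual RowBdd MinorsVanish)
open Pool.Agent.Helper8.LV (Fam Mov Over)

theorem key_n {E : Type*} [Field E] [CharZero E] {σ ι τ : Type*} [Fintype σ] [DecidableEq σ]
    [Fintype ι] [DecidableEq ι] [Unique ι] [Fintype τ] (d b q : ι → ℕ) (hq : ∀ i, 0 < q i)
    (a A : (i : ι) → Sym σ (d i) → E) (p : (i : ι) → Sym σ (b i) → E)
    (h : (i : ι) → Sym σ (q i) → E) (D : Ix σ q → Derivation ℤ E E)
    (jj : τ → Ix σ q) (θ : τ → Ix σ q → E) (hD : Dual q h D jj θ) (hM : Mov d b q a A p h D)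
    (Z : Finset ι) (x : σ → E) (i₀ : σ) (hx : x i₀ = 1)
    (hZ : ∀ i ∈ Z, form (a i) x = 0) (hU : ∀ i ∉ Z, form (a i) x ≠ 0)
    (hP : ∀ i, form (p i) x ≠ 0) (w T : ℕ)
    (h0 : w + 1 = Fintype.card σ ∨
      2 * Fintype.card σ + w + Fintype.card τ + Zᶜ.card + 53 ≤ 10 * q default)
    (h1 : 3 * w + 3 + Zᶜ.card + Fintype.card τ ≤ 2 * q default)
    (h2 : T + Zᶜ.card + 2 ≤ q default) (hmw : MinorsVanish D x w) :
    (∃ G : E, G ≠ 0 ∧
      KeyP (5 * (Fintype.card σ + Fintype.card ι + Fintype.card τ) ^ 3) d a D θ Z x G) ∨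
      ∃ y : σ → E, (∃ j l, x j * y l - x l * y j ≠ 0) ∧
        Moves T (fun s : Sym σ (q default) => D ⟨default, s⟩)
          (fun j (s : Sym σ (q default)) => θ j ⟨default, s⟩) ![x, y] := by
  obtain ⟨n, rfl⟩ : ∃ n : ι → ℕ, q = fun i => n i + 1 :=
    ⟨fun i => q i - 1, funext fun i => (Nat.succ_pred_eq_of_pos (hq i)).symm⟩
  rcases Pool.Agent.Helper49.LN.key_one d b n a A p h D jj θ hD hM Z x i₀ hx hZ hU hP w T h0 h1
    h2 hmw with hG | ⟨y, hy, hfl⟩
  · exact Or.inl hG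
  · exact Or.inr ⟨y, hy, Pool.Agent.Helper49.LN.moves_of_flag T
      (fun s : Sym σ (n default + 1) => D ⟨default, s⟩)
      (fun j (s : Sym σ (n default + 1)) => θ j ⟨default, s⟩) x y
      (Pool.Agent.Helper49.LN.gK n a D θ Z x) (fun _ _ => rfl)
      (Pool.Agent.Helper49.LN.εK d Z) (fun _ => rfl) hfl⟩

end Pool.Agent.Helper74.LN
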