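import Pool.Agent.Helper74.LN.Lam
import Pool.Agent.Helper8.LG.KeyMinor

/-!
# LN-MOVESMIN: `Moves` in terms of minors

`MovesC T β D θ z`: all `(β+1)`-minors of the columns of `Jsp` vanish, some `(β+T)`-minor of the
columns of `Asp` does not (`β = dim Jsp`; `exists_minor`).
-/

set_option autoImplicit false

namespace Pool.Agent.Helper74.LN

open MvPolynomial

private theorem mm_le {E κ ρ : Type*} [Field E] [Fintype ρ] (v : κ → ρ → E) (m : ℕ)
    (r : Fin m → ρ) (c : Fin m → κ)
    (h : Matrix.det (Matrix.of fun s t => v (c t) (r s)) ≠ 0) :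
    m ≤ Module.finrank E ↥(Submodule.span E (Set.range v)) := by
  classical
  have h1 : LinearIndependent E (Matrix.of fun s t => v (c t) (r s)).col :=
    Matrix.linearIndependent_cols_iff_isUnit.mpr
      ((Matrix.isUnit_iff_isUnit_det _).mpr (isUnit_iff_ne_zero.mpr h))
  have h2 : LinearIndependent E ((LinearMap.funLeft E E r) ∘ fun t => v (c t)) := h1
  have h3 : LinearIndependent E fun t => v (c t) := LinearIndependent.of_comp _ h2
  have h4 := finrank_span_eq_card h3
  rw [Fintype.card_fin] at h4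
  rw [← h4]
  apply Submodule.finrank_mono
  apply Submodule.span_mono
  rintro _ ⟨t, rfl⟩
  exact ⟨c t, rfl⟩

private theorem mm_exists {E κ ρ : Type*} [Field E] [Fintype ρ] (v : κ → ρ → E) (m : ℕ)
    (h : m ≤ Module.finrank E ↥(Submodule.span E (Set.range v))) :
    ∃ (r : Fin m → ρ) (c : Fin m → κ),
      Matrix.det (Matrix.of fun s t => v (c t) (r s)) ≠ 0 := by
  classical
  obtain ⟨b, hb1, hb2, hb3⟩ := exists_linearIndependent E (Set.range v)
  have hfin : Finite b := hb3.finite
  have : Fintype b := Fintype.ofFinite b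
  have h4 := finrank_span_eq_card hb3
  rw [Subtype.range_coe, hb2] at h4
  obtain ⟨e⟩ : Nonempty (Fin m ↪ b) := by
    apply Function.Embedding.nonempty_of_card_le
    rw [Fintype.card_fin]
    exact h.trans h4.le
  have hch : ∀ t : Fin m, ∃ j : κ, v j = ((e t : b) : ρ → E) := fun t => hb1 (e t).2
  choose c hc using hch
  have hli : LinearIndependent E fun t => v (c t) := by
    have h1 : (fun t => v (c t)) = (Subtype.val : b → ρ → E) ∘ e := by
      funext t
      exact hc t
    rw [h1]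
    exact hb3.comp _ e.injective
  obtain ⟨r, _, hr⟩ := Helper8.LG.exists_minor (fun t => v (c t)) hli
  exact ⟨r, c, hr⟩

section

variable {E : Type*} [Field E] {σ τ : Type*} [Fintype σ] [DecidableEq σ] {d : ℕ}

/-- the columns of `Jsp` -/
noncomputable def colJ (D : Sym σ d → Derivation ℤ E E) (θ : τ → Sym σ d → E)
    (z : Fin 2 → σ → E) : (Fin 2 × Fin 2) ⊕ ((σ →₀ ℕ) × σ × σ × σ) → (Fin 2 × σ) ⊕ τ → E :=
  Sum.elim (w4 z) (jc (mu D θ z) z)

/-- the columns of `Asp` -/
noncomputable def colA (D : Sym σ d → Derivation ℤ E E) (θ : τ → Sym σ d → E)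
    (z : Fin 2 → σ → E) : (Fin 2 × Fin 2) ⊕ Sym σ d → (Fin 2 × σ) ⊕ τ → E :=
  Sum.elim (w4 z) (mu D θ z)

/-- the certificate -/
def MovesC (T β : ℕ) (D : Sym σ d → Derivation ℤ E E) (θ : τ → Sym σ d → E)
    (z : Fin 2 → σ → E) : Prop :=
  (∀ (r : Fin (β + 1) → (Fin 2 × σ) ⊕ τ) (c : Fin (β + 1) → _),
    Matrix.det (Matrix.of fun s t => colJ D θ z (c t) (r s)) = 0) ∧
  ∃ (r : Fin (β + T) → (Fin 2 × σ) ⊕ τ) (c : Fin (β + T) → _),
    Matrix.det (Matrix.of fun s t => colA D θ z (c t) (r s)) ≠ 0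

theorem moves_iff [Fintype τ] (T : ℕ) (D : Sym σ d → Derivation ℤ E E) (θ : τ → Sym σ d → E)
    (z : Fin 2 → σ → E) :
    Moves T D θ z ↔ ∃ β ≤ Fintype.card ((Fin 2 × σ) ⊕ τ), MovesC T β D θ z := by
  have hJ : Jsp D θ z = Submodule.span E (Set.range (colJ D θ z)) := by
    unfold Jsp colJ
    rw [Set.Sum.elim_range, Submodule.span_union]
  have hA : Asp D θ z = Submodule.span E (Set.range (colA D θ z)) := by
    unfold Asp colA
    rw [Set.Sum.elim_range, Submodule.span_union]
  unfold Moves MovesC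
  rw [hJ, hA]
  constructor
  · intro h
    refine ⟨_, ?_, fun r c => ?_, mm_exists _ _ h⟩
    · refine (Submodule.finrank_le _).trans ?_
      rw [Module.finrank_fintype_fun_eq_card]
    · by_contra hne
      have := mm_le _ _ r c hne
      omega
  · rintro ⟨β, _, h1, r, c, h2⟩
    have h3 := mm_le _ _ r c h2
    have h4 : Module.finrank E ↥(Submodule.span E (Set.range (colJ D θ z))) ≤ β := by
      by_contra hlt
      push Not at hlt
      obtain ⟨r', c', h5⟩ := mm_exists (colJ D θ z) (β + 1) hlt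
      exact h5 (h1 r' c')
    omega

/-- the columns `jc` in terms of the `V s` -/
theorem jc_eq {M : Type*} [AddCommGroup M] [Module E M] (V : Sym σ d → M) (z : Fin 2 → σ → E)
    (q : (σ →₀ ℕ) × σ × σ × σ) :
    jc V z q = pl z q.2.1 q.2.2.1 • Lam V (monomial (q.1 + Finsupp.single q.2.2.2 1) (1 : E)) -
      pl z q.2.1 q.2.2.2 • Lam V (monomial (q.1 + Finsupp.single q.2.2.1 1) (1 : E)) +
      pl z q.2.2.1 q.2.2.2 • Lam V (monomial (q.1 + Finsupp.single q.2.1 1) (1 : E)) := by
  have key : ∀ (a : E) (i : σ), (monomial q.1 (1 : E)) * (C a * X i) =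
      a • monomial (q.1 + Finsupp.single i 1) (1 : E) := by
    intro a i
    rw [C_mul', mul_smul_comm]
    congr 1
    rw [X, monomial_mul, one_mul]
  unfold jc thr
  rw [mul_add, mul_sub, key, key, key, map_add, map_sub, map_smul, map_smul, map_smul]

end

end Pool.Agent.Helper74.LN
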